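import Pool.Agent.Y94.SL.One

set_option autoImplicit false

/-!
# Small values of polynomials in several variables

Set functions which are small on measurable sets whose slices are covered by few short intervals,
and the small ball estimate for polynomials, by induction on the number of variables.
-/

namespace Pool.Agent.Y94.SL

open scoped ENNReal
open Polynomial

variable {ι : Type} [DecidableEq ι]

/-- The properties of the probability which are used: slices of measurable sets which are covered by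
at most `N` intervals of length `2 * δ`. -/
structure SmN (δ : ℝ) (η : ℝ≥0∞) (P : Set (ι → ℝ) → ℝ≥0∞) : Prop where
  empty : P ∅ = 0
  mono : ∀ S T, S ⊆ T → P S ≤ P T
  union : ∀ S T, P (S ∪ T) ≤ P S + P T
  slice : ∀ (p : ι) (N : ℕ) (E : Set (ι → ℝ)), MeasurableSet E →
    (∀ x : ι → ℝ, ∃ A : Finset ℝ, A.card ≤ N ∧
      ∀ y, Function.update x p y ∈ E → ∃ a ∈ A, a ≤ y ∧ y ≤ a + 2 * δ) → P E ≤ N * η

theorem SmN.biUnion {δ : ℝ} {η : ℝ≥0∞} {P : Set (ι → ℝ) → ℝ≥0∞}
    (hP : SmN δ η P) {κ : Type} (s : Finset κ) (E : κ → Set (ι → ℝ)) (b : ℝ≥0∞)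
    (h : ∀ k ∈ s, P (E k) ≤ b) : P (⋃ k ∈ s, E k) ≤ s.card * b := by
  classical
  induction s using Finset.induction_on with
  | empty => simp [hP.empty]
  | insert a s ha ih =>
    rw [Finset.set_biUnion_insert, Finset.card_insert_of_notMem ha]
    refine (hP.union _ _).trans ?_
    push_cast
    rw [add_mul, one_mul, add_comm]
    exact add_le_add (ih fun k hk => h k (Finset.mem_insert_of_mem hk))
      (h a (Finset.mem_insert_self _ _))

variable [Fintype ι]

/-- A monomial. -/
def mono (α : ι → ℕ) (y : ι → ℝ) : ℝ := ∏ i, y i ^ α i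

/-- A polynomial function. -/
def pf (S : Finset (ι → ℕ)) (c : (ι → ℕ) → ℝ) (y : ι → ℝ) : ℝ := ∑ α ∈ S, c α * mono α y

omit [DecidableEq ι] in
theorem pf_continuous (S : Finset (ι → ℕ)) (c : (ι → ℕ) → ℝ) : Continuous (pf S c) := by
  unfold pf mono
  fun_prop

/-- The exponents after removing the variable `p` of exponent `j`. -/
def part (S : Finset (ι → ℕ)) (p : ι) (j : ℕ) : Finset (ι → ℕ) :=
  (S.filter fun α => α p = j).image fun α => Function.update α p 0

/-- The coefficients. -/
def pc (c : (ι → ℕ) → ℝ) (p : ι) (j : ℕ) (γ : ι → ℕ) : ℝ := c (Function.update γ p j)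

theorem mono_split (α : ι → ℕ) (p : ι) (y : ι → ℝ) :
    mono α y = y p ^ α p * mono (Function.update α p 0) y := by
  unfold mono
  have h1 := Finset.mul_prod_erase Finset.univ (fun i => y i ^ α i) (Finset.mem_univ p)
  have h2 := Finset.mul_prod_erase Finset.univ (fun i => y i ^ Function.update α p 0 i)
    (Finset.mem_univ p)
  rw [← h1, ← h2, Function.update_self, pow_zero, one_mul]
  congr 1
  refine Finset.prod_congr rfl fun i hi => ?_
  rw [Function.update_of_ne (Finset.ne_of_mem_erase hi)]

theorem pf_split (S : Finset (ι → ℕ)) (c : (ι → ℕ) → ℝ) (p : ι) (d : ℕ)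
    (hd : ∀ α ∈ S, α p ≤ d) (y : ι → ℝ) :
    pf S c y = ∑ j ∈ Finset.range (d + 1), y p ^ j * pf (part S p j) (pc c p j) y := by
  unfold pf part
  rw [← Finset.sum_fiberwise_of_maps_to (g := fun α : ι → ℕ => α p) (t := Finset.range (d + 1))
    (fun α hα => Finset.mem_range.2 (by have := hd α hα; omega))]
  refine Finset.sum_congr rfl fun j _ => ?_
  rw [Finset.sum_image, Finset.mul_sum]
  · refine Finset.sum_congr rfl fun α hα => ?_
    have hj : α p = j := (Finset.mem_filter.1 hα).2
    unfold pc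
    rw [Function.update_idem, ← hj, Function.update_eq_self, mono_split α p y]
    ring
  · intro α hα β hβ hab
    have h1 : α p = j := (Finset.mem_filter.1 hα).2
    have h2 : β p = j := (Finset.mem_filter.1 hβ).2
    funext i
    by_cases hi : i = p
    · rw [hi, h1, h2]
    · have := congrFun hab i
      simp only [Function.update_of_ne hi] at this
      exact this

theorem pf_update (S : Finset (ι → ℕ)) (c : (ι → ℕ) → ℝ) (p : ι) (hS : ∀ α ∈ S, α p = 0)
    (x : ι → ℝ) (y : ℝ) : pf S c (Function.update x p y) = pf S c x := by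
  unfold pf
  refine Finset.sum_congr rfl fun α hα => ?_
  congr 1
  unfold mono
  refine Finset.prod_congr rfl fun i _ => ?_
  by_cases hi : i = p
  · rw [hi, hS α hα, pow_zero, pow_zero]
  · rw [Function.update_of_ne hi]

theorem part_zero (S : Finset (ι → ℕ)) (p : ι) (j : ℕ) : ∀ α ∈ part S p j, α p = 0 := by
  intro α hα
  obtain ⟨β, -, rfl⟩ := Finset.mem_image.1 hα
  exact Function.update_self _ _ _

/-- The bad event in the induction step. -/
def ev (S : Finset (ι → ℕ)) (c : (ι → ℕ) → ℝ) (p : ι) (j : ℕ) (X ε : ℝ) : Set (ι → ℝ) :=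
  {y | |y p| ≤ X ∧ pf (part S p j) (pc c p j) y ≠ 0 ∧
    |pf S c y| < ε * |pf (part S p j) (pc c p j) y|}

theorem ev_le {δ : ℝ} {η : ℝ≥0∞} {P : Set (ι → ℝ) → ℝ≥0∞} (hP : SmN δ η P) (hδ : 0 < δ)
    (hδ1 : δ ≤ 1) {X : ℝ} (hX : 0 ≤ X) (S : Finset (ι → ℕ)) (c : (ι → ℕ) → ℝ) (p : ι) (d : ℕ)
    (hd : ∀ α ∈ S, α p ≤ d) (j : ℕ) (hj : j ≤ d) :
    P (ev S c p j X ((δ / (8 * (1 + X))) ^ d)) ≤ d * η := by
  refine hP.slice p d _ ?_ ?_
  · have h1 := (pf_continuous (part S p j) (pc c p j)).measurable
    have h2 := (pf_continuous S c).measurable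
    refine MeasurableSet.inter ?_ (MeasurableSet.inter ?_ ?_)
    · exact measurableSet_le (measurable_pi_apply p).abs measurable_const
    · exact (measurableSet_eq_fun h1 measurable_const).compl
    · exact measurableSet_lt h2.abs (measurable_const.mul h1.abs)
  · intro x
    set Q : ℝ[X] := ∑ i ∈ Finset.range (d + 1),
      Polynomial.C (pf (part S p i) (pc c p i) x) * Polynomial.X ^ i with hQ
    have hQd : Q.natDegree ≤ d := by
      rw [hQ]
      refine natDegree_sum_le_of_forall_le _ _ fun i hi => ?_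
      refine (natDegree_C_mul_X_pow_le _ _).trans ?_
      have := Finset.mem_range.1 hi
      omega
    have hQj : Q.coeff j = pf (part S p j) (pc c p j) x := by
      rw [hQ, finsetSum_coeff]
      simp only [coeff_C_mul, coeff_X_pow, mul_ite, mul_one, mul_zero]
      rw [Finset.sum_ite_eq, if_pos (Finset.mem_range.2 (by omega))]
    have hQe : ∀ y, Q.eval y = pf S c (Function.update x p y) := by
      intro y
      rw [pf_split S c p d hd, hQ, eval_finsetSum]
      refine Finset.sum_congr rfl fun i _ => ?_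
      rw [pf_update _ _ p (part_zero S p i), Function.update_self]
      simp only [eval_mul, eval_C, eval_pow, eval_X]
      ring
    by_cases h0 : Q.coeff j = 0
    · refine ⟨∅, by simp, ?_⟩
      intro y hy
      exfalso
      apply hy.2.1
      rw [pf_update _ _ p (part_zero S p j), ← hQj]
      exact h0
    · obtain ⟨A, hA, hA2⟩ := cover hδ hδ1 hX d Q hQd j h0
      refine ⟨A, hA, ?_⟩
      intro y hy
      refine hA2 y ?_ ?_
      · have := hy.1
        rwa [Function.update_self] at this
      · have := hy.2.2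
        rw [pf_update _ _ p (part_zero S p j), ← hQj, ← hQe] at this
        exact this

/-- **Small ball estimate.** -/
theorem ball {δ : ℝ} {η : ℝ≥0∞} {P : Set (ι → ℝ) → ℝ≥0∞} (hP : SmN δ η P) (hδ : 0 < δ)
    (hδ1 : δ ≤ 1) {X : ℝ} (hX : 0 ≤ X) (d : ℕ) (R : Finset ι) :
    ∀ (S : Finset (ι → ℕ)) (c : (ι → ℕ) → ℝ), (∀ α ∈ S, ∀ i, α i ≤ d) →
    (∀ α ∈ S, ∀ i, i ∉ R → α i = 0) → ∀ α₀ ∈ S, c α₀ ≠ 0 →
    P {y | (∀ i, |y i| ≤ X) ∧ |pf S c y| < (((δ / (8 * (1 + X))) ^ d) ^ R.card) * |c α₀|} ≤
      ((R.card * d : ℕ) : ℝ≥0∞) * η := by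
  induction R using Finset.induction_on with
  | empty =>
    intro S c _ hR α₀ hα₀ hc
    have hz : ∀ α ∈ S, α = α₀ := by
      intro α hα
      funext i
      rw [hR α hα i (Finset.notMem_empty i), hR α₀ hα₀ i (Finset.notMem_empty i)]
    have hS : S = {α₀} := by
      ext α
      rw [Finset.mem_singleton]
      exact ⟨hz α, fun h => h ▸ hα₀⟩
    have he : {y : ι → ℝ | (∀ i, |y i| ≤ X) ∧
        |pf S c y| < (((δ / (8 * (1 + X))) ^ d) ^ (∅ : Finset ι).card) * |c α₀|} = ∅ := by
      ext y
      simp only [Set.mem_ofPred_eq, Set.mem_empty_iff_false, iff_false, not_and, not_lt,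
        Finset.card_empty, pow_zero, one_mul]
      intro _
      have h1 : mono α₀ y = 1 := by
        unfold mono
        refine Finset.prod_eq_one fun i _ => ?_
        rw [hR α₀ hα₀ i (Finset.notMem_empty i), pow_zero]
      unfold pf
      rw [hS, Finset.sum_singleton, h1, mul_one]
    rw [he, hP.empty]
    exact zero_le
  | insert p R hp ih =>
    intro S c hSd hR α₀ hα₀ hc
    set ε : ℝ := (δ / (8 * (1 + X))) ^ d with hε
    have hε0 : 0 < ε := by positivity
    set j := α₀ p with hj
    have hjd : j ≤ d := hSd α₀ hα₀ p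
    set γ₀ := Function.update α₀ p 0 with hγ₀
    have hγS : γ₀ ∈ part S p j :=
      Finset.mem_image_of_mem _ (Finset.mem_filter.2 ⟨hα₀, rfl⟩)
    have hγc : pc c p j γ₀ = c α₀ := by
      unfold pc
      rw [hγ₀, Function.update_idem, hj, Function.update_eq_self]
    have hih := ih (part S p j) (pc c p j) (by
        intro α hα i
        obtain ⟨β, hβ, rfl⟩ := Finset.mem_image.1 hα
        by_cases hi : i = p
        · rw [hi, Function.update_self]
          exact Nat.zero_le _
        · rw [Function.update_of_ne hi]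
          exact hSd β (Finset.mem_filter.1 hβ).1 i) (by
        intro α hα i hi
        obtain ⟨β, hβ, rfl⟩ := Finset.mem_image.1 hα
        by_cases hip : i = p
        · rw [hip, Function.update_self]
        · rw [Function.update_of_ne hip]
          refine hR β (Finset.mem_filter.1 hβ).1 i ?_
          rw [Finset.mem_insert, not_or]
          exact ⟨hip, hi⟩) γ₀ hγS (by rw [hγc]; exact hc)
    rw [hγc] at hih
    have hev := ev_le hP hδ hδ1 hX S c p d (fun α hα => hSd α hα p) j hjd
    rw [← hε] at hev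
    have hsub : {y : ι → ℝ | (∀ i, |y i| ≤ X) ∧ |pf S c y| < ε ^ (insert p R).card * |c α₀|} ⊆
        {y | (∀ i, |y i| ≤ X) ∧ |pf (part S p j) (pc c p j) y| < ε ^ R.card * |c α₀|} ∪
          ev S c p j X ε := by
      rintro y ⟨hy, hlt⟩
      by_cases h1 : |pf (part S p j) (pc c p j) y| < ε ^ R.card * |c α₀|
      · exact Or.inl ⟨hy, h1⟩
      · right
        push Not at h1
        have hcp : 0 < |c α₀| := abs_pos.2 hc
        have h2 : 0 < |pf (part S p j) (pc c p j) y| := lt_of_lt_of_le (by positivity) h1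
        refine ⟨hy p, abs_pos.1 h2, ?_⟩
        rw [Finset.card_insert_of_notMem hp, pow_succ] at hlt
        calc |pf S c y| < ε ^ R.card * ε * |c α₀| := hlt
          _ = ε * (ε ^ R.card * |c α₀|) := by ring
          _ ≤ _ := mul_le_mul_of_nonneg_left h1 hε0.le
    refine (hP.mono _ _ hsub).trans ((hP.union _ _).trans ?_)
    rw [Finset.card_insert_of_notMem hp, add_mul, one_mul, Nat.cast_add, add_mul]
    exact add_le_add hih hev

end Pool.Agent.Y94.SL
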