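import Pool.Agent.Y648.CX.StmB
import Pool.Agent.Y648.CW.T_SPAN

set_option autoImplicit false

/-!
# Matrices whose minors lie in few windows

If all nonzero minors of `A` lie in few windows `[w, K * w]`, then the left kernels of all matrices
derived from `A` by selecting, repeating and scaling rows and columns have few scales.
-/

namespace Pool.Agent.Y94.SL

open Matrix Pool.Agent.Y648.CS Pool.Agent.Y648.CS.V

/-- All nonzero minors lie in the windows `[w, K * w]`, `w ∈ W`. -/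
def Win (W : Finset ℝ) (K : ℝ) {m n : ℕ} (A : Matrix (Fin m) (Fin n) ℝ) : Prop :=
  ∀ (k : ℕ) (f : Fin k → Fin m) (h : Fin k → Fin n), (A.submatrix f h).det ≠ 0 →
    ∃ w ∈ W, w ≤ |(A.submatrix f h).det| ∧ |(A.submatrix f h).det| ≤ K * w

theorem ele_circ {m n : ℕ} {A : Matrix (Fin m) (Fin n) ℝ} {C : Fin m → ℝ}
    (h : Ele (lker A) C) : Circ A C := by
  refine ⟨h.2.1, h.1, fun D hD hs => h.2.2 D hD hs⟩

/-- The windows of the circuit ratios. -/
theorem few_of_win {m n m' n' r : ℕ} {W : Finset ℝ} {K : ℝ} {A : Matrix (Fin m) (Fin n) ℝ}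
    (hA : Win W K A) (hW : ∀ w ∈ W, 0 < w) (hK : 1 ≤ K) (hr1 : 1 ≤ r) (hr : W.card * W.card ≤ r)
    (hK2 : K ^ 2 ≤ 2 ^ r) (f : Fin m' → Fin m) (g : Fin n' → Fin n) (ρ : Fin m' → ℝ)
    (γ : Fin n' → ℝ) (A' : Matrix (Fin m') (Fin n') ℝ)
    (hA' : ∀ i j, A' i j = ρ i * A (f i) (g j) * γ j) : FewE r (lker A') := by
  classical
  have hK0 : 0 < K := by linarith
  set B : Matrix (Fin m') (Fin n') ℝ := Matrix.of fun i j =>
    if ρ i = 0 ∨ γ j = 0 then 0 else A (f i) (g j) with hB
  set ρ' : Fin m' → ℝ := fun i => if ρ i = 0 then 1 else (ρ i)⁻¹ with hρ'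
  set G : Matrix (Fin n') (Fin n') ℝ := Matrix.diagonal fun j => if γ j = 0 then 1 else γ j with hG
  have hρ0 : ∀ i, ρ' i ≠ 0 := by
    intro i
    simp only [hρ']
    split_ifs with h
    · exact one_ne_zero
    · exact inv_ne_zero h
  have hG0 : G.det ≠ 0 := by
    rw [hG, Matrix.det_diagonal, Finset.prod_ne_zero_iff]
    intro j _
    split_ifs with h
    · exact one_ne_zero
    · exact h
  have hAB : ∀ i j, ρ' i * A' i j = (B * G) i j := by
    intro i j
    rw [hA', hG, Matrix.mul_diagonal]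
    simp only [hρ', hB, Matrix.of_apply]
    by_cases h1 : ρ i = 0
    · simp [h1]
    · by_cases h2 : γ j = 0
      · simp [h2]
      · simp only [h1, h2, or_self, if_false]
        field_simp
  -- the minors of `B`
  have hBm : ∀ (k : ℕ) (a : Fin k → Fin m') (c : Fin k → Fin n'), (B.submatrix a c).det ≠ 0 →
      ∃ w ∈ W, w ≤ |(B.submatrix a c).det| ∧ |(B.submatrix a c).det| ≤ K * w := by
    intro k a c hd
    have hrow : ∀ i, ρ (a i) ≠ 0 := by
      intro i h0
      apply hd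
      apply Matrix.det_eq_zero_of_row_eq_zero i
      intro j
      simp [hB, h0]
    have hcol : ∀ j, γ (c j) ≠ 0 := by
      intro j h0
      apply hd
      apply Matrix.det_eq_zero_of_column_eq_zero j
      intro i
      simp [hB, h0]
    have he : B.submatrix a c = A.submatrix (f ∘ a) (g ∘ c) := by
      ext i j
      simp [hB, hrow i, hcol j]
    rw [he] at hd ⊢
    exact hA k _ _ hd
  set κ : Fin m' → Fin m' → ℝ := fun i j => |ρ' j / ρ' i| with hκ
  have hκ0 : ∀ i j, 0 < κ i j := fun i j => abs_pos.2 (div_ne_zero (hρ0 j) (hρ0 i))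
  -- windows
  have hr2 : (1 : ℝ) ≤ 2 ^ r := one_le_pow₀ (by norm_num)
  refine ⟨fun i j => if i = j then {1} else
    (W ×ˢ W).image fun e => (κ i j)⁻¹ * (e.1 / e.2 / K), ?_, ?_⟩
  · intro i j
    beta_reduce
    split_ifs with hij
    · refine ⟨by rw [Finset.card_singleton]; omega, ?_⟩
      intro s hs
      rw [Finset.mem_singleton.1 hs]
      norm_num
    · constructor
      · refine Finset.card_image_le.trans ?_
        rw [Finset.card_product]
        exact hr
      · intro s hs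
        obtain ⟨e, he, rfl⟩ := Finset.mem_image.1 hs
        rw [Finset.mem_product] at he
        have h1 := hκ0 i j
        have h2 := hW _ he.1
        have h3 := hW _ he.2
        positivity
  · intro C hC i j hi hj
    by_cases hij : i = j
    · subst hij
      beta_reduce
      rw [if_pos rfl]
      refine ⟨1, Finset.mem_singleton_self _, ?_, ?_⟩
      · rw [div_self hi, abs_one]
      · rw [div_self hi, abs_one, mul_one]
        exact hr2
    beta_reduce
    rw [if_neg hij]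
    have hC' := Y648.CS.W.TSPAN.circ_scale hρ0 hG0 hAB (ele_circ hC)
    have hi' : C i / ρ' i ≠ 0 := div_ne_zero hi (hρ0 i)
    have hj' : C j / ρ' j ≠ 0 := div_ne_zero hj (hρ0 j)
    obtain ⟨a, a', c, hd1, hd2⟩ := Y648.CS.W.TSPAN.circ_minor hC' hij hi' hj'
    set d₁ := (B.submatrix a c).det with hd₁
    have hq0 : C i / ρ' i / (C j / ρ' j) ≠ 0 := div_ne_zero hi' hj'
    have hd2' : (B.submatrix a' c).det ≠ 0 := by
      rw [hd2]
      exact mul_ne_zero (neg_ne_zero.2 hq0) hd1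
    obtain ⟨u, hu, hu1, hu2⟩ := hBm _ a c hd1
    obtain ⟨v, hv, hv1, hv2⟩ := hBm _ a' c hd2'
    rw [← hd₁] at hu1 hu2
    have hu0 := hW u hu
    have hv0 := hW v hv
    have hab : |(B.submatrix a' c).det| = |C i / ρ' i / (C j / ρ' j)| * |d₁| := by
      rw [hd2, abs_mul, abs_neg]
    have hd1p : 0 < |d₁| := abs_pos.2 hd1
    have hratio : |C i / C j| = (κ i j)⁻¹ * (|(B.submatrix a' c).det| / |d₁|) := by
      rw [hab, mul_div_assoc, div_self hd1p.ne', mul_one, hκ]
      simp only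
      rw [← abs_inv, ← abs_mul]
      congr 1
      have := hρ0 i
      have := hρ0 j
      field_simp
    refine ⟨(κ i j)⁻¹ * (v / u / K), ?_, ?_, ?_⟩
    · exact Finset.mem_image.2 ⟨(v, u), Finset.mem_product.2 ⟨hv, hu⟩, rfl⟩
    · rw [hratio]
      refine mul_le_mul_of_nonneg_left ?_ (inv_nonneg.2 (hκ0 i j).le)
      rw [le_div_iff₀ hd1p]
      calc v / u / K * |d₁| ≤ v / u / K * (K * u) := by
            refine mul_le_mul_of_nonneg_left hu2 (by positivity)
        _ = v := by field_simp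
        _ ≤ _ := hv1
    · rw [hratio]
      have h7 : |(B.submatrix a' c).det| / |d₁| ≤ K ^ 2 * (v / u / K) := by
        rw [div_le_iff₀ hd1p]
        calc |(B.submatrix a' c).det| ≤ K * v := hv2
          _ = K ^ 2 * (v / u / K) * u := by field_simp
          _ ≤ _ := mul_le_mul_of_nonneg_left hu1 (by positivity)
      calc (κ i j)⁻¹ * (|(B.submatrix a' c).det| / |d₁|)
          ≤ (κ i j)⁻¹ * (K ^ 2 * (v / u / K)) :=
            mul_le_mul_of_nonneg_left h7 (inv_nonneg.2 (hκ0 i j).le)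
        _ ≤ (κ i j)⁻¹ * (2 ^ r * (v / u / K)) := by
            refine mul_le_mul_of_nonneg_left ?_ (inv_nonneg.2 (hκ0 i j).le)
            exact mul_le_mul_of_nonneg_right hK2 (by positivity)
        _ = 2 ^ r * ((κ i j)⁻¹ * (v / u / K)) := by ring

/-- A hyperplane. -/
theorem hyp_inf {m : ℕ} (L : Submodule ℝ (Fin m → ℝ)) (φ : (Fin m → ℝ) →ₗ[ℝ] ℝ) :
    Hyp (L ⊓ LinearMap.ker φ) L := by
  refine ⟨inf_le_left, ?_⟩
  set ψ : L →ₗ[ℝ] ℝ := φ.domRestrict L with hψ
  have h1 := LinearMap.finrank_range_add_finrank_ker ψ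
  have h2 : Module.finrank ℝ (LinearMap.range ψ) ≤ 1 := by
    have := Submodule.finrank_le (LinearMap.range ψ)
    rwa [Module.finrank_self] at this
  have h3 : Module.finrank ℝ (LinearMap.ker ψ) = Module.finrank ℝ (L ⊓ LinearMap.ker φ : Submodule ℝ (Fin m → ℝ)) := by
    have e : (LinearMap.ker ψ).map L.subtype = L ⊓ LinearMap.ker φ := by
      ext x
      simp only [Submodule.mem_map, LinearMap.mem_ker, Submodule.mem_inf, hψ]
      constructor
      · rintro ⟨y, hy, rfl⟩
        exact ⟨y.2, hy⟩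
      · rintro ⟨hx, h0⟩
        exact ⟨⟨x, hx⟩, h0, rfl⟩
    rw [← e]
    exact (LinearEquiv.finrank_eq (Submodule.equivMapOfInjective _ L.injective_subtype _))
  omega

/-- `A'` is derived from `A`: select (and repeat) rows and columns, multiply them by arbitrary
reals, and change at most one row or at most one column. -/
def Derived {m n m' n' : ℕ} (A : Matrix (Fin m) (Fin n) ℝ) (A' : Matrix (Fin m') (Fin n') ℝ) :
    Prop :=
  ∃ (f : Fin m' → Fin m) (g : Fin n' → Fin n) (ρ : Fin m' → ℝ) (γ : Fin n' → ℝ),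
    (∃ i₀, ∀ i j, i ≠ i₀ → A' i j = ρ i * A (f i) (g j) * γ j) ∨
    (∃ j₀, ∀ i j, j ≠ j₀ → A' i j = ρ i * A (f i) (g j) * γ j)

theorem near_of_win {m n m' n' r : ℕ} {W : Finset ℝ} {K : ℝ} {A : Matrix (Fin m) (Fin n) ℝ}
    (hA : Win W K A) (hW : ∀ w ∈ W, 0 < w) (hK : 1 ≤ K) (hr1 : 1 ≤ r) (hr : W.card * W.card ≤ r)
    (hK2 : K ^ 2 ≤ 2 ^ r) (A' : Matrix (Fin m') (Fin n') ℝ) (hD : Derived A A') :
    NearE r A' := by
  classical
  obtain ⟨f, g, ρ, γ, ⟨i₀, h⟩ | ⟨j₀, h⟩⟩ := hD
  · -- one row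
    set A₁ : Matrix (Fin m') (Fin n') ℝ := Matrix.of fun i j => ρ i * A (f i) (g j) * γ j with hA₁
    have hF := few_of_win hA hW hK hr1 hr hK2 f g ρ γ A₁ (fun i j => rfl)
    have hkey : ∀ C : Fin m' → ℝ, C i₀ = 0 → C ᵥ* A' = C ᵥ* A₁ := by
      intro C hC
      funext j
      simp only [Matrix.vecMul, dotProduct]
      refine Finset.sum_congr rfl fun i _ => ?_
      by_cases hi : i = i₀
      · subst hi
        rw [hC, zero_mul, zero_mul]
      · rw [h i j hi, hA₁, Matrix.of_apply]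
    refine ⟨lker A' ⊓ LinearMap.ker (LinearMap.proj i₀), Or.inl (hyp_inf _ _), ?_⟩
    obtain ⟨S, hS1, hS2⟩ := hF
    refine ⟨S, hS1, ?_⟩
    intro C hC
    apply hS2
    have hC0 : C i₀ = 0 := hC.1.2
    refine ⟨?_, hC.2.1, ?_⟩
    · have h1 : C ᵥ* A' = 0 := hC.1.1
      show C ᵥ* A₁ = 0
      rw [← hkey C hC0]
      exact h1
    · intro D hD hs
      have hD0 : D i₀ = 0 := hs i₀ hC0
      refine hC.2.2 D ⟨?_, hD0⟩ hs
      show D ᵥ* A' = 0
      rw [hkey D hD0]
      exact hD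
  · -- one column
    set A₁ : Matrix (Fin m') (Fin n') ℝ := Matrix.of fun i j =>
      ρ i * A (f i) (g j) * (if j = j₀ then 0 else γ j) with hA₁
    have hF := few_of_win hA hW hK hr1 hr hK2 f g ρ (fun j => if j = j₀ then 0 else γ j) A₁
      (fun i j => rfl)
    set φ : (Fin m' → ℝ) →ₗ[ℝ] ℝ := (LinearMap.proj j₀).comp (Matrix.vecMulLinear A') with hφ
    have he : lker A' = lker A₁ ⊓ LinearMap.ker φ := by
      ext C
      have e1 : C ∈ lker A' ↔ C ᵥ* A' = 0 := Iff.rfl
      have e2 : C ∈ lker A₁ ⊓ LinearMap.ker φ ↔ C ᵥ* A₁ = 0 ∧ (C ᵥ* A') j₀ = 0 := Iff.rfl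
      rw [e1, e2]
      have hcol : ∀ j, j ≠ j₀ → (C ᵥ* A₁) j = (C ᵥ* A') j := by
        intro j hj
        simp only [Matrix.vecMul, dotProduct]
        refine Finset.sum_congr rfl fun i _ => ?_
        rw [h i j hj, hA₁, Matrix.of_apply, if_neg hj]
      have hcol0 : (C ᵥ* A₁) j₀ = 0 := by
        simp only [Matrix.vecMul, dotProduct]
        refine Finset.sum_eq_zero fun i _ => ?_
        rw [hA₁, Matrix.of_apply, if_pos rfl, mul_zero, mul_zero]
      constructor
      · intro h0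
        refine ⟨?_, by rw [h0]; rfl⟩
        funext j
        by_cases hj : j = j₀
        · rw [hj, hcol0]; rfl
        · rw [hcol j hj, h0]
      · rintro ⟨h0, h1⟩
        funext j
        by_cases hj : j = j₀
        · rw [hj, h1]; rfl
        · rw [← hcol j hj, h0]
    refine ⟨lker A₁, Or.inr ?_, hF⟩
    rw [he]
    exact hyp_inf _ _

end Pool.Agent.Y94.SL
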