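import Mathlib

set_option autoImplicit false

/-!
# From tails to expectations
-/

namespace Pool.Agent.Y94.SL

open MeasureTheory Polynomial
open scoped ENNReal

theorem expect_bound {Ω : Type} [MeasurableSpace Ω] (μ : Measure Ω) [IsProbabilityMeasure μ]
    (bad : ℕ → Set Ω) (h : ∀ t, μ (bad t) ≤ ENNReal.ofReal ((1 / 2) ^ t)) (g : ℕ → ℕ)
    (hg : Monotone g) (M : ℕ) (hM : ∃ t, M ≤ g t) :
    ∃ T : Ω → ℝ≥0∞, Measurable T ∧
      (∀ (x : Ω) (N : ℕ), N ≤ M → (∀ t, x ∉ bad t → N ≤ g t) → (N : ℝ≥0∞) ≤ T x) ∧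
      ∫⁻ x, T x ∂μ ≤ (g 0 : ℝ≥0∞) + ∑' t, ENNReal.ofReal ((1 / 2) ^ t) * (g (t + 1) : ℝ≥0∞) := by
  classical
  set B : ℕ → Set Ω := fun t => toMeasurable μ (bad t) with hB
  have hBm : ∀ t, MeasurableSet (B t) := fun t => measurableSet_toMeasurable _ _
  refine ⟨fun x => ⨅ t, if x ∈ B t then (M : ℝ≥0∞) else (g t : ℝ≥0∞), ?_, ?_, ?_⟩
  · refine Measurable.iInf fun t => ?_
    exact Measurable.ite (hBm t) measurable_const measurable_const
  · intro x N hNM hN
    refine le_iInf fun t => ?_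
    split_ifs with hx
    · exact_mod_cast hNM
    · have : x ∉ bad t := fun h' => hx (subset_toMeasurable μ (bad t) h')
      exact_mod_cast hN t this
  · have hpt : ∀ x, (⨅ t, if x ∈ B t then (M : ℝ≥0∞) else (g t : ℝ≥0∞)) ≤
        (g 0 : ℝ≥0∞) + ∑' t, (B t).indicator (fun _ => (g (t + 1) : ℝ≥0∞)) x := by
      intro x
      by_cases hex : ∃ t, x ∉ B t
      · have hτ := Nat.find_spec hex
        have hmin : ∀ t, t < Nat.find hex → x ∈ B t := fun t ht => by
          have := Nat.find_min hex ht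
          push Not at this
          exact this
        refine (iInf_le _ (Nat.find hex)).trans ?_
        rw [if_neg hτ]
        rcases Nat.eq_zero_or_pos (Nat.find hex) with h0 | h0
        · rw [h0]
          exact le_self_add
        · obtain ⟨s, hs⟩ : ∃ s, Nat.find hex = s + 1 := ⟨Nat.find hex - 1, by omega⟩
          have hxs : x ∈ B s := hmin s (by omega)
          have h1 := ENNReal.le_tsum (f := fun t => (B t).indicator
            (fun _ => (g (t + 1) : ℝ≥0∞)) x) s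
          simp only [Set.indicator_of_mem hxs] at h1
          rw [hs]
          exact h1.trans le_add_self
      · push Not at hex
        obtain ⟨s, hs⟩ := hM
        refine (iInf_le _ 0).trans ?_
        rw [if_pos (hex 0)]
        have h1 := ENNReal.le_tsum (f := fun t => (B t).indicator
          (fun _ => (g (t + 1) : ℝ≥0∞)) x) s
        simp only [Set.indicator_of_mem (hex s)] at h1
        have h2 : (M : ℝ≥0∞) ≤ (g (s + 1) : ℝ≥0∞) := by
          exact_mod_cast hs.trans (hg (Nat.le_succ s))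
        exact h2.trans (h1.trans le_add_self)
    refine (lintegral_mono hpt).trans ?_
    rw [lintegral_add_left measurable_const, lintegral_const, measure_univ, mul_one,
      lintegral_tsum fun t => (measurable_const.indicator (hBm t)).aemeasurable]
    refine add_le_add le_rfl (ENNReal.tsum_le_tsum fun t => ?_)
    rw [lintegral_indicator (hBm t), lintegral_const, Measure.restrict_apply_univ, mul_comm]
    refine mul_le_mul_left ?_ _
    rw [hB]
    simp only [measure_toMeasurable]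
    exact h t

theorem eval_shift (p : ℕ[X]) (c t : ℕ) :
    p.eval (c + (t + 1)) ≤ p.eval (c + 1) * (t + 1) ^ p.natDegree := by
  rw [eval_eq_sum_range, eval_eq_sum_range, Finset.sum_mul]
  refine Finset.sum_le_sum fun i hi => ?_
  have hi' : i ≤ p.natDegree := by
    have := Finset.mem_range.1 hi
    omega
  rw [mul_assoc]
  refine Nat.mul_le_mul_left _ ?_
  calc (c + (t + 1)) ^ i ≤ ((c + 1) * (t + 1)) ^ i := by
        refine Nat.pow_le_pow_left ?_ i
        nlinarith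
    _ = (c + 1) ^ i * (t + 1) ^ i := mul_pow _ _ _
    _ ≤ (c + 1) ^ i * (t + 1) ^ p.natDegree :=
        Nat.mul_le_mul_left _ (Nat.pow_le_pow_right (by omega) hi')

theorem geom_fin (d : ℕ) :
    ∑' t : ℕ, ENNReal.ofReal ((1 / 2) ^ t) * (((t + 1) ^ d : ℕ) : ℝ≥0∞) ≠ ∞ := by
  have h1 : Summable fun t : ℕ => ((1 : ℝ) / 2) ^ t * ((t : ℝ) + 1) ^ d := by
    have h2 := summable_pow_mul_geometric_of_norm_lt_one (R := ℝ) d (r := 1 / 2) (by norm_num)
    have h3 := (summable_nat_add_iff 1).2 h2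
    have h4 := h3.mul_left 2
    refine h4.congr fun t => ?_
    push_cast
    rw [pow_succ (1 / 2 : ℝ) t]
    ring
  have h5 := h1.tsum_ofReal_ne_top
  convert h5 using 4 with t
  rw [ENNReal.ofReal_mul (by positivity)]
  congr 1
  rw [← ENNReal.ofReal_natCast]
  push_cast
  rfl

theorem poly_sum (p : ℕ[X]) : ∃ p₂ : ℕ[X], ∀ c : ℕ, ((p.eval c : ℕ) : ℝ≥0∞) +
    ∑' t : ℕ, ENNReal.ofReal ((1 / 2) ^ t) * ((p.eval (c + (t + 1)) : ℕ) : ℝ≥0∞) ≤ ((p₂.eval c : ℕ) : ℝ≥0∞) := by
  obtain ⟨C, hC⟩ := ENNReal.exists_nat_gt (geom_fin p.natDegree)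
  refine ⟨p + Polynomial.C C * p.comp (X + 1), fun c => ?_⟩
  rw [eval_add, eval_mul, eval_C, eval_comp, eval_add, eval_X, eval_one, Nat.cast_add,
    Nat.cast_mul]
  refine add_le_add le_rfl ?_
  calc ∑' t : ℕ, ENNReal.ofReal ((1 / 2) ^ t) * ((p.eval (c + (t + 1)) : ℕ) : ℝ≥0∞)
      ≤ ∑' t : ℕ, ((p.eval (c + 1) : ℕ) : ℝ≥0∞) *
        (ENNReal.ofReal ((1 / 2) ^ t) * (((t + 1) ^ p.natDegree : ℕ) : ℝ≥0∞)) := by
        refine ENNReal.tsum_le_tsum fun t => ?_
        have h1 : ((p.eval (c + (t + 1)) : ℕ) : ℝ≥0∞) ≤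
            ((p.eval (c + 1) * (t + 1) ^ p.natDegree : ℕ) : ℝ≥0∞) := by
          exact_mod_cast eval_shift p c t
        calc ENNReal.ofReal ((1 / 2) ^ t) * ((p.eval (c + (t + 1)) : ℕ) : ℝ≥0∞)
            ≤ ENNReal.ofReal ((1 / 2) ^ t) *
              ((p.eval (c + 1) * (t + 1) ^ p.natDegree : ℕ) : ℝ≥0∞) := by gcongr
          _ = _ := by
              rw [Nat.cast_mul]
              ring
    _ = ((p.eval (c + 1) : ℕ) : ℝ≥0∞) *
        ∑' t : ℕ, ENNReal.ofReal ((1 / 2) ^ t) * (((t + 1) ^ p.natDegree : ℕ) : ℝ≥0∞) :=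
        ENNReal.tsum_mul_left
    _ ≤ ((p.eval (c + 1) : ℕ) : ℝ≥0∞) * C := by gcongr
    _ = C * ((p.eval (c + 1) : ℕ) : ℝ≥0∞) := mul_comm _ _

end Pool.Agent.Y94.SL
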