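import Mathlib

set_option autoImplicit false

/-!
# The length of integer polynomials, and the length and degree of determinants
-/

namespace Pool.Agent.Y94.SL

open MvPolynomial
open scoped Nat

variable {κ : Type}

/-- The sum of the absolute values of the coefficients. -/
def len (F : MvPolynomial κ ℤ) : ℤ := ∑ γ ∈ F.support, |F.coeff γ|

theorem len_eq (F : MvPolynomial κ ℤ) (T : Finset (κ →₀ ℕ)) (hT : F.support ⊆ T) :
    len F = ∑ γ ∈ T, |F.coeff γ| := by
  unfold len
  refine Finset.sum_subset hT fun γ _ h => ?_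
  rw [notMem_support_iff.1 h, abs_zero]

theorem len_nonneg (F : MvPolynomial κ ℤ) : 0 ≤ len F :=
  Finset.sum_nonneg fun _ _ => abs_nonneg _

theorem len_zero : len (0 : MvPolynomial κ ℤ) = 0 := by
  unfold len
  simp

theorem len_add_le (F G : MvPolynomial κ ℤ) : len (F + G) ≤ len F + len G := by
  classical
  rw [len_eq (F + G) (F.support ∪ G.support) support_add,
    len_eq F (F.support ∪ G.support) Finset.subset_union_left,
    len_eq G (F.support ∪ G.support) Finset.subset_union_right, ← Finset.sum_add_distrib]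
  refine Finset.sum_le_sum fun γ _ => ?_
  rw [coeff_add]
  exact abs_add_le _ _

theorem len_sum_le {β : Type} (s : Finset β) (f : β → MvPolynomial κ ℤ) :
    len (∑ i ∈ s, f i) ≤ ∑ i ∈ s, len (f i) := by
  classical
  induction s using Finset.induction_on with
  | empty => simp [len_zero]
  | insert a s ha ih =>
    rw [Finset.sum_insert ha, Finset.sum_insert ha]
    exact (len_add_le _ _).trans (by linarith)

theorem len_monomial_le (γ : κ →₀ ℕ) (a : ℤ) : len (monomial γ a) ≤ |a| := by
  classical
  rw [len_eq (monomial γ a) {γ} support_monomial_subset, Finset.sum_singleton, coeff_monomial,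
    if_pos rfl]

theorem len_mul_le (F G : MvPolynomial κ ℤ) : len (F * G) ≤ len F * len G := by
  have h1 : F * G = ∑ a ∈ F.support, ∑ b ∈ G.support,
      monomial (a + b) (F.coeff a * G.coeff b) := by
    rw [mul_def]
    rfl
  rw [h1]
  refine (len_sum_le _ _).trans ?_
  unfold len
  rw [Finset.sum_mul]
  refine Finset.sum_le_sum fun a _ => ?_
  refine (len_sum_le _ _).trans ?_
  rw [Finset.mul_sum]
  refine Finset.sum_le_sum fun b _ => ?_
  rw [← abs_mul]
  exact len_monomial_le _ _

theorem len_one : len (1 : MvPolynomial κ ℤ) ≤ 1 := by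
  have : (1 : MvPolynomial κ ℤ) = monomial 0 1 := rfl
  rw [this]
  exact (len_monomial_le _ _).trans (by simp)

theorem len_prod_le {β : Type} (s : Finset β) (f : β → MvPolynomial κ ℤ) (Z : ℤ)
    (hf : ∀ i ∈ s, len (f i) ≤ Z) : len (∏ i ∈ s, f i) ≤ Z ^ s.card := by
  classical
  induction s using Finset.induction_on with
  | empty =>
    rw [Finset.prod_empty, Finset.card_empty, pow_zero]
    exact len_one
  | insert a s ha ih =>
    rw [Finset.prod_insert ha, Finset.card_insert_of_notMem ha, pow_succ']
    refine (len_mul_le _ _).trans ?_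
    have h1 := hf a (Finset.mem_insert_self _ _)
    have h2 := ih fun i hi => hf i (Finset.mem_insert_of_mem hi)
    exact mul_le_mul h1 h2 (len_nonneg _) ((len_nonneg _).trans h1)

theorem len_units (u : ℤˣ) (F : MvPolynomial κ ℤ) : len (u • F) = len F := by
  rcases Int.units_eq_one_or u with h | h
  · rw [h, one_smul]
  · rw [h]
    have h1 : (-1 : ℤˣ) • F = -F := by
      rw [Units.smul_def]
      simp
    rw [h1]
    unfold len
    rw [support_neg]
    refine Finset.sum_congr rfl fun γ _ => ?_
    rw [coeff_neg, abs_neg]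

theorem len_det_le {k : ℕ} (M : Matrix (Fin k) (Fin k) (MvPolynomial κ ℤ)) (Z : ℤ)
    (hM : ∀ i j, len (M i j) ≤ Z) : len M.det ≤ k ! * Z ^ k := by
  rw [Matrix.det_apply]
  refine (len_sum_le _ _).trans ?_
  have h1 : ∀ σ : Equiv.Perm (Fin k), len (Equiv.Perm.sign σ • ∏ i, M (σ i) i) ≤ Z ^ k := by
    intro σ
    rw [len_units]
    have h2 := len_prod_le Finset.univ (fun i => M (σ i) i) Z fun i _ => hM _ _
    rwa [Finset.card_univ, Fintype.card_fin] at h2
  refine (Finset.sum_le_sum fun σ _ => h1 σ).trans ?_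
  rw [Finset.sum_const, Finset.card_univ, Fintype.card_perm, Fintype.card_fin, nsmul_eq_mul]

theorem deg_det_le {k d : ℕ} (M : Matrix (Fin k) (Fin k) (MvPolynomial κ ℤ))
    (hM : ∀ i j, (M i j).totalDegree ≤ d) : M.det.totalDegree ≤ k * d := by
  rw [Matrix.det_apply]
  refine totalDegree_finsetSum_le fun σ _ => ?_
  have h1 : (Equiv.Perm.sign σ • ∏ i, M (σ i) i).totalDegree =
      (∏ i, M (σ i) i).totalDegree := by
    rcases Int.units_eq_one_or (Equiv.Perm.sign σ) with h | h
    · rw [h, one_smul]
    · rw [h]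
      have h1 : (-1 : ℤˣ) • (∏ i, M (σ i) i) = -(∏ i, M (σ i) i) := by
        rw [Units.smul_def]
        simp
      rw [h1, totalDegree_neg]
  rw [h1]
  refine (totalDegree_finsetProd _ _).trans ?_
  calc ∑ i, (M (σ i) i).totalDegree ≤ ∑ _i : Fin k, d := Finset.sum_le_sum fun i _ => hM _ _
    _ = k * d := by simp

theorem coeff_le_len (F : MvPolynomial κ ℤ) (γ : κ →₀ ℕ) : |F.coeff γ| ≤ len F := by
  by_cases h : γ ∈ F.support
  · exact Finset.single_le_sum (f := fun γ => |F.coeff γ|) (fun _ _ => abs_nonneg _) h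
  · rw [notMem_support_iff.1 h, abs_zero]
    exact len_nonneg F

theorem card_le_len (F : MvPolynomial κ ℤ) : (F.support.card : ℤ) ≤ len F := by
  unfold len
  rw [Finset.card_eq_sum_ones]
  push_cast
  refine Finset.sum_le_sum fun γ hγ => ?_
  exact Int.one_le_abs (mem_support_iff.1 hγ)

end Pool.Agent.Y94.SL
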