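import Pool.Agent.Y94.SL.Parts
import Pool.Agent.Y94.SL.Expect

set_option autoImplicit false

/-!
# Smoothed complexity of linear feasibility: the main theorem
-/

namespace Pool.Agent.Y94.SL

open Matrix MeasureTheory Polynomial Pool.Agent.H622R3.SM Pool.Agent.Y648.CS
  Pool.Agent.Y648.CS.V
open scoped ENNReal

theorem pol_A : ∃ q : ℕ[X], ∀ m n l d D L t N : ℕ, rG n d l N (sM n D) (D + (t + 1 + l))
    (Qn m n l d + L + 1 + t + 1) ≤ q.eval (m + n + l + d + D + L + t + N) := by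
  refine ⟨(X * (X * X + 1)) ^ 2 + 2 * ((X * X + X * X) + (X + (X + 1 + X)) * (X * X) +
    2 * (X + (X + (X * X + X * X)) * X) +
    ((X * X + 2 * X + X + X) + X + 1 + X + 1 + 4 + (X + (X + 1 + X))) * (X * X) * X) + 1, ?_⟩
  intro m n l d D L t N
  obtain ⟨T, hT⟩ : ∃ T, T = m + n + l + d + D + L + t + N := ⟨_, rfl⟩
  rw [← hT]
  simp only [eval_add, eval_mul, eval_pow, eval_X, eval_one, eval_ofNat]
  unfold rG kap Qn sM
  gcongr <;> omega

theorem pol_1 : ∃ q : ℕ[X], ∀ m n l d D t N : ℕ, rG n d l N (sM n D) (D + 1)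
    (Qn m n l d + 1 + t) ≤ q.eval (m + n + l + d + D + t + N) := by
  refine ⟨(X * (X * X + 1)) ^ 2 + 2 * ((X * X + X * X) + (X + 1) * (X * X) +
    2 * (X + (X + (X * X + X * X)) * X) +
    ((X * X + 2 * X + X + X) + 1 + X + 4 + (X + 1)) * (X * X) * X) + 1, ?_⟩
  intro m n l d D t N
  obtain ⟨T, hT⟩ : ∃ T, T = m + n + l + d + D + t + N := ⟨_, rfl⟩
  rw [← hT]
  simp only [eval_add, eval_mul, eval_pow, eval_X, eval_one, eval_ofNat]
  unfold rG kap Qn sM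
  gcongr <;> omega

theorem pol_2 : ∃ q : ℕ[X], ∀ m n l d D t N : ℕ,
    rG n d l N (sM n D + (D + (Qn m n l d + 1 + t)) * (n * d)) 0 0 ≤
      q.eval (m + n + l + d + D + t + N) := by
  refine ⟨(X * (X * X + 1)) ^ 2 + 2 * (((X * X + X * X) +
    (X + ((X * X + 2 * X + X + X) + 1 + X)) * (X * X)) + 0 * (X * X) +
    2 * (X + (X + ((X * X + X * X) + (X + ((X * X + 2 * X + X + X) + 1 + X)) * (X * X))) * X) +
    (0 + 4 + 0) * (X * X) * X) + 1, ?_⟩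
  intro m n l d D t N
  obtain ⟨T, hT⟩ : ∃ T, T = m + n + l + d + D + t + N := ⟨_, rfl⟩
  rw [← hT]
  simp only [eval_add, eval_mul, eval_pow, eval_X, eval_one, eval_ofNat, eval_zero]
  unfold rG kap Qn sM
  gcongr <;> omega

theorem Strong.mono {α : Alg} {p p' : ℕ[X]} (hpp : ∀ x, p.eval x ≤ p'.eval x) {N m n : ℕ}
    {A : Matrix (Fin m) (Fin n) ℝ} (h : Strong α p N A) : Strong α p' N A := by
  intro m' n' hm' hn' A' hD b
  obtain ⟨k, ans, nums, steps, h1, h2⟩ := h m' n' hm' hn' A' hD b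
  exact ⟨k, ans, nums, steps, h1, h2.trans (hpp _)⟩

theorem Correct.mono {α : Alg} {p p' : ℕ[X]} (hpp : ∀ x, p.eval x ≤ p'.eval x)
    (h : Correct α p) : Correct α p' := by
  intro m n hm hn A b
  obtain ⟨k, ans, nums, steps, h1, h2, h3, h4⟩ := h m n hm hn A b
  refine ⟨k, ans, nums, steps, h1, h2, h3.trans (hpp _), fun A' b' hA hb => ?_⟩
  obtain ⟨h5, h6⟩ := h4 A' b' hA hb
  refine ⟨h5.trans (hpp _), fun v hv => ?_⟩
  obtain ⟨q, hq1, hq2⟩ := h6 v hv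
  exact ⟨q, hq1, hq2.trans (hpp _)⟩

/-- Small integer polynomials. -/
def Small {κ : Type} (d D : ℕ) (F : MvPolynomial κ ℤ) : Prop :=
  F.totalDegree ≤ d ∧ ∑ γ ∈ F.support, |F.coeff γ| ≤ 2 ^ D

/-- From tails to expectations, for the algorithm. -/
theorem expect_part {α : Alg} {p₀ p₂ : ℕ[X]} (hC : Correct α p₀)
    (hp₂ : ∀ c : ℕ, ((p₀.eval c : ℕ) : ℝ≥0∞) + ∑' t : ℕ, ENNReal.ofReal ((1 / 2) ^ t) *
      ((p₀.eval (c + (t + 1)) : ℕ) : ℝ≥0∞) ≤ ((p₂.eval c : ℕ) : ℝ≥0∞))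
    {Ω : Type} [MeasurableSpace Ω] (μ : Measure Ω) [IsProbabilityMeasure μ] {m n : ℕ}
    (A : Ω → Matrix (Fin m) (Fin n) ℝ) (T₀ : ℕ)
    (h : ∀ t, μ {y | ¬ Strong α p₀ (T₀ + t) (A y)} ≤ ENNReal.ofReal ((1 / 2) ^ t))
    (m' n' : ℕ) (hm' : 1 ≤ m') (hn' : 1 ≤ n') :
    ∃ T : Ω → ℝ≥0∞, Measurable T ∧ (∀ (y : Ω) (A' : Matrix (Fin m') (Fin n') ℝ),
      Derived (A y) A' → ∀ b, ∃ N : ℕ, (N : ℝ≥0∞) ≤ T y ∧ StopsIn α A' b N) ∧
      ∫⁻ y, T y ∂μ ≤ ((p₂.eval (m' + n' + T₀) : ℕ) : ℝ≥0∞) := by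
  obtain ⟨T, hT1, hT2, hT3⟩ := expect_bound μ (fun t => {y | ¬ Strong α p₀ (T₀ + t) (A y)}) h
    (fun t => p₀.eval (m' + n' + T₀ + t)) (fun a b hab => pe_mono p₀ (by omega))
    (p₀.eval (m' + n' + 2 ^ m')) ⟨2 ^ m', pe_mono p₀ (by omega)⟩
  refine ⟨T, hT1, ?_, ?_⟩
  · intro y A' hD b
    obtain ⟨k, ans, nums, steps, h1, -, h3, -⟩ := hC m' n' hm' hn' A' b
    refine ⟨steps, ?_, k, ans, nums, steps, h1, le_refl _⟩
    refine hT2 y steps h3 fun t ht => ?_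
    have hS : Strong α p₀ (T₀ + t) (A y) := by
      by_contra hne
      exact ht hne
    obtain ⟨k', ans', nums', steps', h1', h2'⟩ := hS m' n' hm' hn' A' hD b
    have he := run_unique ∅ _ h1 h1'
    have he2 := (Prod.ext_iff.1 (Prod.ext_iff.1 he).2).2
    simp only at he2
    rw [he2]
    have h4 : m' + n' + (T₀ + t) = m' + n' + T₀ + t := by ring
    rwa [h4] at h2'
  · refine hT3.trans ?_
    have := hp₂ (m' + n' + T₀)
    simpa [add_assoc] using this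

theorem main : ∃ (α : Alg) (p : ℕ[X]), PolyControl α ∧ OracleFree α ∧ Correct α p ∧
    ∀ k l m n d D : ℕ, 1 ≤ m → 1 ≤ n →
    ∀ P : Matrix (Fin m) (Fin n) (MvPolynomial (Fin k ⊕ Fin l) ℤ), (∀ i j, Small d D (P i j)) →
    ∀ θ : Fin k → ℝ,
    (∀ (L : ℕ) (ν : Fin l → Measure ℝ), (∀ r, IsProbabilityMeasure (ν r)) →
      (∀ r, Spread D L (ν r)) →
      (∀ t : ℕ, Measure.pi ν {y | ¬ Strong α p
        (m + n + l + d + D + L + t + (n * d + 1) ^ k) (evM P θ y)} ≤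
          ENNReal.ofReal ((1 / 2) ^ t)) ∧
      ∀ m' n' : ℕ, 1 ≤ m' → 1 ≤ n' → ∃ T : (Fin l → ℝ) → ℝ≥0∞, Measurable T ∧
        (∀ (y : Fin l → ℝ) (A' : Matrix (Fin m') (Fin n') ℝ), Derived (evM P θ y) A' →
          ∀ b, ∃ N : ℕ, (N : ℝ≥0∞) ≤ T y ∧ StopsIn α A' b N) ∧
        ∫⁻ y, T y ∂Measure.pi ν ≤
          ((p.eval (m' + n' + (m + n + l + d + D + L + (n * d + 1) ^ k)) : ℕ) : ℝ≥0∞)) ∧
    ∀ t B : ℕ, 1 ≤ B → ∀ M : Fin l → ℤ, (∀ r, |M r| ≤ 2 ^ D * (B : ℤ)) →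
      2 ^ t * {E : Fin l → ℤ | (∀ r, |E r| ≤ B) ∧ ¬ Strong α p
        (m + n + l + d + D + t + (n * d + 1) ^ k)
        (evM P θ fun r => ((M r + E r : ℤ) : ℝ))}.ncard ≤ (2 * B + 1) ^ l := by
  obtain ⟨h1, h2, p, hp⟩ := Pool.Agent.Y648.CS.V.main
  have hE : Eng p := hp
  obtain ⟨qA, hqA⟩ := pol_A
  obtain ⟨q1, hq1⟩ := pol_1
  obtain ⟨q2, hq2⟩ := pol_2
  obtain ⟨qr, hqr⟩ := rat_near
  set q := qA + q1 + q2 + qr with hq
  set p₀ := p.comp (X + q) with hp₀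
  obtain ⟨p₂, hp₂⟩ := poly_sum p₀
  have hle : ∀ x, p₀.eval x ≤ (p₀ + p₂).eval x := by
    intro x
    rw [eval_add]
    omega
  have hC : Correct W.algW p₀ := by
    refine correct hp hqr fun N => ?_
    rw [hq]
    simp only [eval_add]
    omega
  have hreal : ∀ {k l m n d D L t : ℕ}, 1 ≤ m → 1 ≤ n →
      ∀ {P : Matrix (Fin m) (Fin n) (MvPolynomial (Fin k ⊕ Fin l) ℤ)},
      (∀ i j, Small d D (P i j)) → ∀ (θ : Fin k → ℝ) (ν : Fin l → Measure ℝ),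
      (∀ r, IsProbabilityMeasure (ν r)) → (∀ r, Spread D L (ν r)) →
      Measure.pi ν {y | ¬ Strong W.algW p₀ (m + n + l + d + D + L + t + (n * d + 1) ^ k)
        (evM P θ y)} ≤ ENNReal.ofReal ((1 / 2) ^ t) := by
    intro k l m n d D L t hm hn P hP θ ν hν hS
    refine real_part hE (fun m n l d D L t N => ?_) hm hn hP θ ν hν hS
    have := hqA m n l d D L t N
    rw [hq]
    simp only [eval_add]
    omega
  refine ⟨W.algW, p₀ + p₂, h1, h2, hC.mono hle, ?_⟩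
  intro k l m n d D hm hn P hP θ
  refine ⟨fun L ν hν hS => ⟨fun t => ?_, fun m' n' hm' hn' => ?_⟩, fun t B hB M hM => ?_⟩
  · refine (measure_mono ?_).trans (hreal (t := t) hm hn hP θ ν hν hS)
    intro y hy hS'
    exact hy (hS'.mono hle)
  · obtain ⟨T, hT1, hT2, hT3⟩ := expect_part hC hp₂ (Measure.pi ν) (evM P θ)
      (m + n + l + d + D + L + (n * d + 1) ^ k) (fun t => by
        have h3 := hreal (t := t) hm hn hP θ ν hν hS
        have h4 : m + n + l + d + D + L + (n * d + 1) ^ k + t =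
          m + n + l + d + D + L + t + (n * d + 1) ^ k := by ring
        rw [h4]
        exact h3) m' n' hm' hn'
    refine ⟨T, hT1, hT2, hT3.trans ?_⟩
    rw [eval_add]
    exact_mod_cast Nat.le_add_left _ _
  · have h3 := int_part (q := q) (t := t) hE (fun m n l d D t N => by
        have := hq1 m n l d D t N
        rw [hq]
        simp only [eval_add]
        omega) (fun m n l d D t N => by
        have := hq2 m n l d D t N
        rw [hq]
        simp only [eval_add]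
        omega) hm hn hB hP θ M hM
    refine le_trans (Nat.mul_le_mul_left _ (Set.ncard_le_ncard ?_ ?_)) h3
    · rintro E ⟨h4, h5⟩
      exact ⟨h4, fun hS' => h5 (hS'.mono hle)⟩
    · refine (Finset.finite_toSet (box (Fin l) B)).subset ?_
      rintro E ⟨h4, -⟩
      rw [Finset.mem_coe]
      unfold box
      rw [Fintype.mem_piFinset]
      intro r
      rw [Finset.mem_Icc]
      exact abs_le.1 (h4 r)

end Pool.Agent.Y94.SL
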