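import Pool.Agent.Y94.SL.Rep
import Pool.Agent.Y94.SL.Det

set_option autoImplicit false

/-!
# The minors of a matrix of integer polynomials in `θ` and `y` lie in few windows, for most `y`
-/

namespace Pool.Agent.Y94.SL

open MvPolynomial
open scoped ENNReal Nat

variable {k l m n : ℕ}

/-- The matrix with the entries `P i j (θ, y)`. -/
noncomputable def evM (P : Matrix (Fin m) (Fin n) (MvPolynomial (Fin k ⊕ Fin l) ℤ))
    (θ : Fin k → ℝ) (y : Fin l → ℝ) : Matrix (Fin m) (Fin n) ℝ :=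
  Matrix.of fun i j => aeval (Sum.elim θ y) (P i j)

theorem det_evM (P : Matrix (Fin m) (Fin n) (MvPolynomial (Fin k ⊕ Fin l) ℤ))
    (θ : Fin k → ℝ) (y : Fin l → ℝ) {q : ℕ} (f : Fin q → Fin m) (h : Fin q → Fin n) :
    ((evM P θ y).submatrix f h).det = aeval (Sum.elim θ y) (P.submatrix f h).det := by
  rw [AlgHom.map_det]
  rfl

theorem det_not_inj {k : ℕ} (A : Matrix (Fin m) (Fin n) ℝ) (f : Fin k → Fin m) (h : Fin k → Fin n)
    (hh : ¬ Function.Injective h) : (A.submatrix f h).det = 0 := by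
  unfold Function.Injective at hh
  push Not at hh
  obtain ⟨a, b, hab, hne⟩ := hh
  apply Matrix.det_zero_of_column_eq hne
  intro i
  simp [hab]

/-- The exponent of the length of the minors. -/
def sM (n D : ℕ) : ℕ := n * n + D * n

theorem minor_len {D : ℕ} {P : Matrix (Fin m) (Fin n) (MvPolynomial (Fin k ⊕ Fin l) ℤ)}
    (hP : ∀ i j, len (P i j) ≤ 2 ^ D) {q : ℕ} (hq : q ≤ n) (f : Fin q → Fin m)
    (h : Fin q → Fin n) : len (P.submatrix f h).det ≤ 2 ^ sM n D := by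
  refine (len_det_le _ (2 ^ D) fun _ _ => hP _ _).trans ?_
  have h4 : q ! ≤ 2 ^ (n * n) := by
    calc q ! ≤ q ^ q := Nat.factorial_le_pow q
      _ ≤ (2 ^ q) ^ q := Nat.pow_le_pow_left Nat.lt_two_pow_self.le q
      _ = 2 ^ (q * q) := by rw [← pow_mul]
      _ ≤ 2 ^ (n * n) := Nat.pow_le_pow_right (by norm_num) (Nat.mul_le_mul hq hq)
  have h5 : (2 ^ D) ^ q ≤ 2 ^ (D * n) := by
    rw [← pow_mul]
    exact Nat.pow_le_pow_right (by norm_num) (Nat.mul_le_mul_left _ hq)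
  have h6 := Nat.mul_le_mul h4 h5
  rw [← pow_add] at h6
  exact_mod_cast h6

theorem minor_deg {d : ℕ} {P : Matrix (Fin m) (Fin n) (MvPolynomial (Fin k ⊕ Fin l) ℤ)}
    (hP : ∀ i j, (P i j).totalDegree ≤ d) {q : ℕ} (hq : q ≤ n) (f : Fin q → Fin m)
    (h : Fin q → Fin n) : (P.submatrix f h).det.totalDegree ≤ n * d :=
  (deg_det_le _ fun _ _ => hP _ _).trans (Nat.mul_le_mul_right _ hq)

/-- The width. -/
def wd (k N s : ℕ) : ℕ := Y648.CS.W.TSPAN.wd ((N + 1) ^ k) s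

/-- One minor. -/
theorem one_minor {δ : ℝ} {η : ℝ≥0∞} {Pr : Set (Fin l → ℝ) → ℝ≥0∞} (hPr : SmN δ η Pr)
    (hδ : 0 < δ) (hδ1 : δ ≤ 1) {X : ℝ} (hX : 1 ≤ X) {N s : ℕ}
    {F : MvPolynomial (Fin k ⊕ Fin l) ℤ} (hF : F.totalDegree ≤ N) (hlen : len F ≤ 2 ^ s)
    (θ : Fin k → ℝ) {b : ℝ} (hb : 0 < b) {W : Finset ℝ}
    (hW : ∀ v ∈ Y648.CS.W.TSPAN.Vals ((N + 1) ^ k) s (wt N θ), ∃ σ ∈ W,
      σ ≤ v * 2 ^ wd k N s ∧ v ≤ 2 ^ wd k N s * σ) (hW0 : ∀ σ ∈ W, 0 < σ) :
    ∃ E : Set (Fin l → ℝ), Pr E ≤ ((l * N : ℕ) : ℝ≥0∞) * η ∧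
    ∀ x, x ∉ E → (∀ i, |x i| ≤ X) → aeval (Sum.elim θ fun r => b * x r) F ≠ (0 : ℝ) →
      ∃ σ ∈ W, ∃ e ≤ N, (((δ / (8 * (1 + X))) ^ N) ^ l / 2 ^ wd k N s) * (σ * b ^ e) ≤
        |aeval (Sum.elim θ fun r => b * x r) F| ∧
        |aeval (Sum.elim θ fun r => b * x r) F| ≤
          (2 ^ s * X ^ N * 2 ^ wd k N s) * (σ * b ^ e) := by
  classical
  set c : (Fin l → ℕ) → ℝ := fun α => cY F θ α * b ^ (∑ r, α r) with hc
  have hX0 : 0 ≤ X := by linarith
  by_cases hz : ∀ α ∈ SY F, c α = 0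
  · refine ⟨∅, by rw [hPr.empty]; exact zero_le, ?_⟩
    intro x _ _ hne
    exfalso
    apply hne
    rw [aeval_scale]
    unfold pf
    refine Finset.sum_eq_zero fun α hα => ?_
    have := hz α hα
    simp only [hc] at this
    beta_reduce
    rw [this, zero_mul]
  push Not at hz
  obtain ⟨α₁, hα₁, hc₁⟩ := hz
  obtain ⟨α₀, hα₀, hmax⟩ := Finset.exists_max_image (SY F) (fun α => |c α|) ⟨α₁, hα₁⟩
  have hc0 : c α₀ ≠ 0 := by
    have h1 := hmax α₁ hα₁
    have h2 := abs_pos.2 hc₁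
    exact abs_pos.1 (lt_of_lt_of_le h2 h1)
  have hball := ball hPr hδ hδ1 hX0 N (Finset.univ : Finset (Fin l)) (SY F) c
    (fun α hα i => by
      have h1 := SY_deg hF hα
      have h2 := Finset.single_le_sum (f := α) (fun _ _ => Nat.zero_le _) (Finset.mem_univ i)
      omega)
    (fun α _ i hi => absurd (Finset.mem_univ i) hi) α₀ hα₀ hc0
  rw [Finset.card_univ, Fintype.card_fin] at hball
  refine ⟨_, hball, ?_⟩
  intro x hx hxX _
  have hlow : ((δ / (8 * (1 + X))) ^ N) ^ l * |c α₀| ≤ |pf (SY F) c x| := by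
    by_contra hlt
    push Not at hlt
    exact hx ⟨hxX, hlt⟩
  have hup : |pf (SY F) c x| ≤ 2 ^ s * X ^ N * |c α₀| := by
    unfold pf
    refine (Finset.abs_sum_le_sum_abs _ _).trans ?_
    have h1 : ∀ α ∈ SY F, |c α * mono α x| ≤ X ^ N * |c α₀| := by
      intro α hα
      rw [abs_mul, mul_comm (X ^ N)]
      refine mul_le_mul (hmax α hα) ?_ (abs_nonneg _) (abs_nonneg _)
      unfold mono
      rw [Finset.abs_prod]
      calc ∏ i, |x i ^ α i| ≤ ∏ i, X ^ α i := by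
            refine Finset.prod_le_prod (fun _ _ => abs_nonneg _) fun i _ => ?_
            rw [abs_pow]
            exact pow_le_pow_left₀ (abs_nonneg _) (hxX i) _
        _ = X ^ (∑ i, α i) := Finset.prod_pow_eq_pow_sum _ _ _
        _ ≤ X ^ N := pow_le_pow_right₀ hX (SY_deg hF hα)
    refine (Finset.sum_le_sum h1).trans ?_
    rw [Finset.sum_const, nsmul_eq_mul, mul_assoc]
    refine mul_le_mul_of_nonneg_right ?_ (by positivity)
    have h2 : ((SY F).card : ℤ) ≤ 2 ^ s := (SY_card F).trans hlen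
    exact_mod_cast h2
  -- the coefficient
  set T := F.support.filter fun γ => ey γ = α₀ with hT
  obtain ⟨v, hv1, hv2⟩ := comb hF θ T (Finset.filter_subset _ _) (fun _ => 1) 1 (by norm_num)
    (fun _ _ => by simp)
  have hcY : cY F θ α₀ = ∑ b, (v b : ℝ) * wt N θ b := by
    rw [← hv2]
    unfold cY
    refine Finset.sum_congr rfl fun γ _ => ?_
    rw [mul_one]
  have hcY0 : cY F θ α₀ ≠ 0 := by
    intro h
    apply hc0
    simp only [hc]
    rw [h, zero_mul]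
  obtain ⟨σ, hσ, hσ1, hσ2⟩ := hW |cY F θ α₀| ⟨abs_pos.2 hcY0, v, fun b => (hv1 b).trans (by
    rw [mul_one]; exact hlen), by rw [hcY]⟩
  have hσ0 := hW0 σ hσ
  set e := ∑ r, α₀ r with he
  have heN : e ≤ N := SY_deg hF hα₀
  have hcabs : |c α₀| = |cY F θ α₀| * b ^ e := by
    simp only [hc]
    rw [abs_mul, abs_of_pos (pow_pos hb _)]
  refine ⟨σ, hσ, e, heN, ?_, ?_⟩
  · rw [aeval_scale]
    refine le_trans ?_ hlow
    rw [hcabs, div_mul_eq_mul_div, div_le_iff₀ (by positivity)]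
    have hεp : 0 < ((δ / (8 * (1 + X))) ^ N) ^ l := by positivity
    calc ((δ / (8 * (1 + X))) ^ N) ^ l * (σ * b ^ e)
        ≤ ((δ / (8 * (1 + X))) ^ N) ^ l * ((|cY F θ α₀| * 2 ^ wd k N s) * b ^ e) := by gcongr
      _ = _ := by ring
  · rw [aeval_scale]
    refine hup.trans ?_
    rw [hcabs]
    calc 2 ^ s * X ^ N * (|cY F θ α₀| * b ^ e)
        ≤ 2 ^ s * X ^ N * ((2 ^ wd k N s * σ) * b ^ e) := by gcongr
      _ = _ := by ring

/-- **All minors.** -/
theorem minors_prob {δ : ℝ} {η : ℝ≥0∞} {Pr : Set (Fin l → ℝ) → ℝ≥0∞} (hPr : SmN δ η Pr)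
    (hm : 1 ≤ m) (hn : 1 ≤ n) (hδ : 0 < δ) (hδ1 : δ ≤ 1) {X : ℝ} (hX : 1 ≤ X) {d D : ℕ}
    {P : Matrix (Fin m) (Fin n) (MvPolynomial (Fin k ⊕ Fin l) ℤ)}
    (hP : ∀ i j, (P i j).totalDegree ≤ d ∧ len (P i j) ≤ 2 ^ D) (θ : Fin k → ℝ) {b : ℝ}
    (hb : 0 < b) : ∃ W : Finset ℝ, W.card ≤ (n * d + 1) ^ k * (n * d + 1) ∧ (∀ w ∈ W, 0 < w) ∧
    ∃ E : Set (Fin l → ℝ), Pr E ≤ (((n + 1) * (m * n) ^ n * (l * (n * d)) : ℕ) : ℝ≥0∞) * η ∧
    ∀ x, x ∉ E → (∀ i, |x i| ≤ X) →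
      Win W ((2 ^ sM n D * X ^ (n * d) * 2 ^ wd k (n * d) (sM n D)) /
        (((δ / (8 * (1 + X))) ^ (n * d)) ^ l / 2 ^ wd k (n * d) (sM n D)))
        (evM P θ fun r => b * x r) := by
  classical
  set N := n * d with hN
  set s := sM n D with hs
  obtain ⟨W, hW1, hW0, hW⟩ := Y648.CS.W.TSPAN.windows ((N + 1) ^ k) s (wt N θ)
  have hone : ∀ (q : ℕ) (f : Fin q → Fin m) (h : Fin q → Fin n), ∃ E : Set (Fin l → ℝ),
      Pr E ≤ ((l * N : ℕ) : ℝ≥0∞) * η ∧ ∀ x, x ∉ E → (∀ i, |x i| ≤ X) →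
      ((evM P θ fun r => b * x r).submatrix f h).det ≠ 0 →
      ∃ σ ∈ W, ∃ e ≤ N, (((δ / (8 * (1 + X))) ^ N) ^ l / 2 ^ wd k N s) * (σ * b ^ e) ≤
        |((evM P θ fun r => b * x r).submatrix f h).det| ∧
        |((evM P θ fun r => b * x r).submatrix f h).det| ≤
          (2 ^ s * X ^ N * 2 ^ wd k N s) * (σ * b ^ e) := by
    intro q f h
    by_cases hh : Function.Injective h
    · have hqn : q ≤ n := by
        have := Fintype.card_le_of_injective h hh
        simpa using this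
      obtain ⟨E, hE1, hE2⟩ := one_minor hPr hδ hδ1 hX
        (minor_deg (fun i j => (hP i j).1) hqn f h) (minor_len (fun i j => (hP i j).2) hqn f h)
        θ hb hW hW0
      refine ⟨E, hE1, fun x hx hxX hd => ?_⟩
      rw [det_evM] at hd ⊢
      exact hE2 x hx hxX hd
    · refine ⟨∅, by rw [hPr.empty]; exact zero_le, ?_⟩
      intro x _ _ hd
      exact absurd (det_not_inj _ f h hh) hd
  choose E hE1 hE2 using hone
  have hcard : Fintype.card (Σ q : Fin (n + 1), (Fin q → Fin m) × (Fin q → Fin n)) ≤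
      (n + 1) * (m * n) ^ n := by
    rw [Fintype.card_sigma]
    have h1 : ∀ q : Fin (n + 1), Fintype.card ((Fin q → Fin m) × (Fin q → Fin n)) ≤
        (m * n) ^ n := by
      intro q
      rw [Fintype.card_prod, Fintype.card_fun, Fintype.card_fun, Fintype.card_fin,
        Fintype.card_fin, Fintype.card_fin, ← mul_pow]
      exact Nat.pow_le_pow_right (Nat.mul_pos hm hn) (by omega)
    refine (Finset.sum_le_sum fun q _ => h1 q).trans ?_
    rw [Finset.sum_const, Finset.card_univ, Fintype.card_fin, smul_eq_mul]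
  set ε : ℝ := ((δ / (8 * (1 + X))) ^ N) ^ l / 2 ^ wd k N s with hε
  have hε0 : 0 < ε := by
    have : 0 < 1 + X := by linarith
    positivity
  refine ⟨(W ×ˢ Finset.range (N + 1)).image fun q => ε * (q.1 * b ^ q.2), ?_, ?_,
    ⋃ q ∈ (Finset.univ : Finset (Σ q : Fin (n + 1), (Fin q → Fin m) × (Fin q → Fin n))),
      E q.1 q.2.1 q.2.2, ?_, ?_⟩
  · refine Finset.card_image_le.trans ?_
    rw [Finset.card_product, Finset.card_range]
    exact Nat.mul_le_mul_right _ hW1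
  · intro w hw
    obtain ⟨q, hq, rfl⟩ := Finset.mem_image.1 hw
    have := hW0 _ (Finset.mem_product.1 hq).1
    positivity
  · refine (hPr.biUnion _ _ (((l * N : ℕ) : ℝ≥0∞) * η) fun q _ => hE1 _ _ _).trans ?_
    rw [Finset.card_univ, ← mul_assoc, ← Nat.cast_mul]
    gcongr
  · intro x hx hxX q f h hd
    have hh : Function.Injective h := by
      by_contra hh
      exact hd (det_not_inj _ f h hh)
    have hqn : q ≤ n := by
      have := Fintype.card_le_of_injective h hh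
      simpa using this
    have hxE : x ∉ E q f h := by
      intro hxE
      apply hx
      simp only [Set.mem_iUnion]
      exact ⟨⟨⟨q, by omega⟩, f, h⟩, Finset.mem_univ _, hxE⟩
    obtain ⟨σ, hσ, e, he, h1, h2⟩ := hE2 q f h x hxE hxX hd
    refine ⟨ε * (σ * b ^ e), ?_, h1, ?_⟩
    · exact Finset.mem_image.2 ⟨(σ, e), Finset.mem_product.2
        ⟨hσ, Finset.mem_range.2 (by omega)⟩, rfl⟩
    · have h3 : 2 ^ s * X ^ N * 2 ^ wd k N s / ε * (ε * (σ * b ^ e)) =
          2 ^ s * X ^ N * 2 ^ wd k N s * (σ * b ^ e) := by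
        field_simp
      rw [h3]
      exact h2

/-- Small integer parameters. -/
theorem minors_int {d D Y : ℕ} {P : Matrix (Fin m) (Fin n) (MvPolynomial (Fin k ⊕ Fin l) ℤ)}
    (hP : ∀ i j, (P i j).totalDegree ≤ d ∧ len (P i j) ≤ 2 ^ D) (θ : Fin k → ℝ) :
    ∃ W : Finset ℝ, W.card ≤ (n * d + 1) ^ k ∧ (∀ w ∈ W, 0 < w) ∧ ∀ y : Fin l → ℤ,
      (∀ r, |y r| ≤ 2 ^ Y) → Win W (2 ^ (2 * wd k (n * d) (sM n D + Y * (n * d))))
        (evM P θ fun r => (y r : ℝ)) := by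
  classical
  set N := n * d with hN
  set s := sM n D + Y * N with hs
  obtain ⟨W, hW1, hW0, hW⟩ := Y648.CS.W.TSPAN.windows ((N + 1) ^ k) s (wt N θ)
  set ω := wd k N s with hω
  refine ⟨W.image fun σ => σ / 2 ^ ω, Finset.card_image_le.trans hW1, ?_, ?_⟩
  · intro w hw
    obtain ⟨σ, hσ, rfl⟩ := Finset.mem_image.1 hw
    have := hW0 σ hσ
    positivity
  · intro y hy q f h hd
    have hh : Function.Injective h := by
      by_contra hh
      exact hd (det_not_inj _ f h hh)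
    have hqn : q ≤ n := by
      have := Fintype.card_le_of_injective h hh
      simpa using this
    rw [det_evM] at hd ⊢
    set F := (P.submatrix f h).det with hF
    have hFd : F.totalDegree ≤ N := minor_deg (fun i j => (hP i j).1) hqn f h
    have hFl : len F ≤ 2 ^ sM n D := minor_len (fun i j => (hP i j).2) hqn f h
    obtain ⟨v, hv1, hv2⟩ := comb hFd θ F.support (Finset.Subset.refl _)
      (fun γ => ∏ r, y r ^ ey γ r) (2 ^ (Y * N)) (by positivity) (by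
        intro γ hγ
        rw [Finset.abs_prod]
        calc ∏ r, |y r ^ ey γ r| ≤ ∏ r, (2 ^ Y) ^ ey γ r := by
              refine Finset.prod_le_prod (fun _ _ => abs_nonneg _) fun r _ => ?_
              rw [abs_pow]
              exact pow_le_pow_left₀ (abs_nonneg _) (hy r) _
          _ = (2 ^ Y) ^ (∑ r, ey γ r) := Finset.prod_pow_eq_pow_sum _ _ _
          _ ≤ (2 ^ Y) ^ N := by
              refine pow_le_pow_right₀ (one_le_pow₀ (by norm_num)) ?_
              have := supp_deg hFd hγ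
              omega
          _ = 2 ^ (Y * N) := by rw [← pow_mul])
    have hval : aeval (Sum.elim θ fun r => (y r : ℝ)) F = ∑ b, (v b : ℝ) * wt N θ b := by
      rw [← hv2, aeval_eq]
      refine Finset.sum_congr rfl fun γ _ => ?_
      unfold mono
      push_cast
      ring
    rw [hval] at hd ⊢
    obtain ⟨σ, hσ, h1, h2⟩ := hW |∑ b, (v b : ℝ) * wt N θ b| ⟨abs_pos.2 hd, v, fun b => by
      refine (hv1 b).trans ?_
      rw [hs, pow_add]
      exact mul_le_mul_of_nonneg_right hFl (by positivity), rfl⟩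
    have hσ0 := hW0 σ hσ
    change σ ≤ _ * 2 ^ ω at h1
    change _ ≤ 2 ^ ω * σ at h2
    refine ⟨σ / 2 ^ ω, Finset.mem_image_of_mem _ hσ, ?_, ?_⟩
    · rw [div_le_iff₀ (by positivity)]
      exact h1
    · have h3 : (2 : ℝ) ^ (2 * ω) * (σ / 2 ^ ω) = 2 ^ ω * σ := by
        rw [two_mul, pow_add]
        field_simp
      rw [h3]
      exact h2

end Pool.Agent.Y94.SL
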