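import Pool.Agent.Y94.SL.Ball

set_option autoImplicit false

/-!
# The two probability models: independent laws with bounded densities, and integers in a box
-/

namespace Pool.Agent.Y94.SL

open MeasureTheory
open scoped ENNReal

variable {ι : Type} [Fintype ι] [DecidableEq ι]

theorem smN_real (ν : ι → Measure ℝ) [∀ p, IsProbabilityMeasure (ν p)] (Λ δ : ℝ)
    (hν : ∀ p, ∀ u v, ν p (Set.Icc u v) ≤ ENNReal.ofReal (Λ * (v - u))) :
    SmN δ (ENNReal.ofReal (Λ * (2 * δ))) (fun S => Measure.pi ν S) where
  empty := measure_empty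
  mono S T h := measure_mono h
  union S T := measure_union_le S T
  slice p N E hE h := by
    have h1 : (∫⁻ x, E.indicator (fun _ => (1 : ℝ≥0∞)) x ∂Measure.pi ν) ≤
        ∫⁻ _x : ι → ℝ, (N * ENNReal.ofReal (Λ * (2 * δ))) ∂Measure.pi ν := by
      refine lintegral_le_of_lmarginal_le {p} (measurable_const.indicator hE) measurable_const ?_
      rw [lmarginal_singleton, lmarginal_singleton]
      intro x
      obtain ⟨A, hA, ha⟩ := h x
      calc ∫⁻ y, E.indicator (fun _ => (1 : ℝ≥0∞)) (Function.update x p y) ∂ν p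
          ≤ ∫⁻ y, (⋃ a ∈ A, Set.Icc a (a + 2 * δ)).indicator (fun _ => (1 : ℝ≥0∞)) y ∂ν p := by
            refine lintegral_mono fun y => ?_
            by_cases hy : Function.update x p y ∈ E
            · rw [Set.indicator_of_mem hy, Set.indicator_of_mem]
              obtain ⟨a, haA, h2⟩ := ha y hy
              exact Set.mem_biUnion haA h2
            · rw [Set.indicator_of_notMem hy]
              exact zero_le
        _ = ν p (⋃ a ∈ A, Set.Icc a (a + 2 * δ)) := by
            rw [lintegral_indicator (Finset.measurableSet_biUnion _ fun _ _ => measurableSet_Icc),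
              lintegral_one, Measure.restrict_apply_univ]
        _ ≤ ∑ a ∈ A, ν p (Set.Icc a (a + 2 * δ)) := measure_biUnion_finset_le _ _
        _ ≤ ∑ _a ∈ A, ENNReal.ofReal (Λ * (2 * δ)) := by
            refine Finset.sum_le_sum fun a _ => ?_
            have := hν p a (a + 2 * δ)
            rwa [add_sub_cancel_left] at this
        _ ≤ N * ENNReal.ofReal (Λ * (2 * δ)) := by
            rw [Finset.sum_const, nsmul_eq_mul]
            gcongr
        _ = ∫⁻ _y, (N * ENNReal.ofReal (Λ * (2 * δ))) ∂ν p := by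
            rw [lintegral_const, measure_univ, mul_one]
    rw [lintegral_indicator hE, lintegral_one, Measure.restrict_apply_univ, lintegral_const,
      measure_univ, mul_one] at h1
    exact h1

/-! ### Integers in a box -/

/-- The integer vectors with entries between `-B` and `B`. -/
noncomputable def box (ι : Type) [Fintype ι] [DecidableEq ι] (B : ℕ) : Finset (ι → ℤ) :=
  Fintype.piFinset fun _ => Finset.Icc (-(B : ℤ)) B

theorem box_card (B : ℕ) : (box ι B).card = (2 * B + 1) ^ Fintype.card ι := by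
  unfold box
  rw [Fintype.card_piFinset, Finset.prod_const, Int.card_Icc, Finset.card_univ]
  congr 1
  omega

/-- The scaled vector. -/
noncomputable def scl (M : ι → ℤ) (B : ℕ) (E : ι → ℤ) (p : ι) : ℝ := ((M p : ℝ) + E p) / B

theorem card_ints (S : Finset ℤ) (a b w : ℝ) (h : ∀ e ∈ S, a ≤ e ∧ (e : ℝ) ≤ b) (hb : b ≤ a + w)
    (hw : 0 ≤ w) : (S.card : ℝ) ≤ w + 1 := by
  have h1 : S ⊆ Finset.Icc ⌈a⌉ ⌊b⌋ := by
    intro e he
    rw [Finset.mem_Icc]
    exact ⟨Int.ceil_le.2 (h e he).1, Int.le_floor.2 (h e he).2⟩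
  have h2 := Finset.card_le_card h1
  rw [Int.card_Icc] at h2
  have h3 : (S.card : ℝ) ≤ ((⌊b⌋ + 1 - ⌈a⌉).toNat : ℝ) := by exact_mod_cast h2
  refine h3.trans ?_
  rcases le_total 0 (⌊b⌋ + 1 - ⌈a⌉) with h4 | h4
  · have h5 : ((⌊b⌋ + 1 - ⌈a⌉).toNat : ℝ) = ((⌊b⌋ + 1 - ⌈a⌉ : ℤ) : ℝ) := by
      have : ((⌊b⌋ + 1 - ⌈a⌉).toNat : ℤ) = ⌊b⌋ + 1 - ⌈a⌉ := Int.toNat_of_nonneg h4
      exact_mod_cast congrArg (Int.cast : ℤ → ℝ) this
    rw [h5]
    push_cast
    have h6 := Int.floor_le b
    have h7 := Int.le_ceil a
    linarith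
  · rw [Int.toNat_eq_zero.2 h4]
    push_cast
    linarith

open Classical in
theorem slice_card (M : ι → ℤ) (B : ℕ) (hB : 1 ≤ B) (δ : ℝ) (hδ : 0 ≤ δ) (p : ι) (N : ℕ)
    (E : Set (ι → ℝ))
    (h : ∀ x : ι → ℝ, ∃ A : Finset ℝ, A.card ≤ N ∧
      ∀ y, Function.update x p y ∈ E → ∃ a ∈ A, a ≤ y ∧ y ≤ a + 2 * δ) :
    ((((box ι B).filter fun e => scl M B e ∈ E).card : ℕ) : ℝ) ≤
      (N * (2 * δ * B + 1)) * (2 * B + 1) ^ (Fintype.card ι - 1) := by
  set S := (box ι B).filter fun e => scl M B e ∈ E with hS
  have hB0 : (0 : ℝ) < B := by exact_mod_cast hB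
  have hfib : ∀ a ∈ S.image fun e => Function.update e p 0,
      (S.filter fun e => Function.update e p 0 = a).card ≤ ⌊(N : ℝ) * (2 * δ * B + 1)⌋₊ := by
    intro a _
    obtain ⟨A, hA, hu⟩ := h (scl M B a)
    rw [Nat.le_floor_iff (by positivity)]
    have hinj : Set.InjOn (fun e : ι → ℤ => e p) (S.filter fun e => Function.update e p 0 = a) := by
      intro e he e' he' hee
      have h1 := (Finset.mem_filter.1 (Finset.mem_coe.1 he)).2
      have h2 := (Finset.mem_filter.1 (Finset.mem_coe.1 he')).2
      funext q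
      by_cases hq : q = p
      · rw [hq]; exact hee
      · have h3 := congrFun (h1.trans h2.symm) q
        rwa [Function.update_of_ne hq, Function.update_of_ne hq] at h3
    rw [← Finset.card_image_of_injOn hinj]
    set T := (S.filter fun e => Function.update e p 0 = a).image fun e : ι → ℤ => e p with hT
    have hcov : T ⊆ A.biUnion fun u => T.filter fun e : ℤ => u ≤ ((M p : ℝ) + e) / B ∧
        ((M p : ℝ) + e) / B ≤ u + 2 * δ := by
      intro e he
      obtain ⟨e', he', rfl⟩ := Finset.mem_image.1 he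
      obtain ⟨h1, h2⟩ := Finset.mem_filter.1 he'
      have h3 : scl M B e' ∈ E := (Finset.mem_filter.1 h1).2
      have h4 : scl M B e' = Function.update (scl M B a) p (((M p : ℝ) + e' p) / B) := by
        funext q
        by_cases hq : q = p
        · rw [hq, Function.update_self]; rfl
        · rw [Function.update_of_ne hq]
          unfold scl
          rw [← h2, Function.update_of_ne hq]
      rw [h4] at h3
      obtain ⟨u, huA, h5⟩ := hu _ h3
      exact Finset.mem_biUnion.2 ⟨u, huA, Finset.mem_filter.2 ⟨he, h5⟩⟩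
    have h6 : ∀ u ∈ A, ((T.filter fun e : ℤ => u ≤ ((M p : ℝ) + e) / B ∧
        ((M p : ℝ) + e) / B ≤ u + 2 * δ).card : ℝ) ≤ 2 * δ * B + 1 := by
      intro u _
      refine card_ints _ (u * B - M p) ((u + 2 * δ) * B - M p) (2 * δ * B) ?_ (by ring_nf; rfl)
        (by positivity)
      intro e he
      obtain ⟨h5, h6⟩ := (Finset.mem_filter.1 he).2
      rw [le_div_iff₀ hB0] at h5
      rw [div_le_iff₀ hB0] at h6
      constructor <;> linarith
    have h7 : (T.card : ℝ) ≤ ∑ u ∈ A, ((T.filter fun e : ℤ => u ≤ ((M p : ℝ) + e) / B ∧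
        ((M p : ℝ) + e) / B ≤ u + 2 * δ).card : ℝ) := by
      exact_mod_cast (Finset.card_le_card hcov).trans Finset.card_biUnion_le
    refine h7.trans ((Finset.sum_le_sum h6).trans ?_)
    rw [Finset.sum_const, nsmul_eq_mul]
    have h8 : (A.card : ℝ) ≤ N := by exact_mod_cast hA
    exact mul_le_mul_of_nonneg_right h8 (by positivity)
  have h1 := Finset.card_le_mul_card_image S _ hfib
  have himg : (S.image fun e => Function.update e p 0).card ≤
      (2 * B + 1) ^ (Fintype.card ι - 1) := by
    have hsub : (S.image fun e => Function.update e p 0) ⊆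
        Fintype.piFinset fun q => if q = p then {0} else Finset.Icc (-(B : ℤ)) B := by
      intro e he
      obtain ⟨e', he', rfl⟩ := Finset.mem_image.1 he
      have h2 := (Finset.mem_filter.1 he').1
      rw [Fintype.mem_piFinset]
      intro q
      by_cases hq : q = p
      · subst hq
        rw [if_pos rfl, Function.update_self]
        exact Finset.mem_singleton_self _
      · rw [if_neg hq, Function.update_of_ne hq]
        exact Fintype.mem_piFinset.1 h2 q
    refine (Finset.card_le_card hsub).trans ?_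
    rw [Fintype.card_piFinset]
    have h2 : ∀ q : ι, (if q = p then ({0} : Finset ℤ) else Finset.Icc (-(B : ℤ)) B).card =
        if q = p then 1 else 2 * B + 1 := by
      intro q
      split_ifs
      · rfl
      · rw [Int.card_Icc]; omega
    simp only [h2]
    rw [Finset.prod_ite, Finset.prod_const_one, one_mul, Finset.prod_const]
    refine Nat.pow_le_pow_right (by omega) ?_
    have h3 : (Finset.univ.filter fun q : ι => ¬ q = p) = Finset.univ.erase p := by
      ext q
      simp
    rw [h3, Finset.card_erase_of_mem (Finset.mem_univ p), Finset.card_univ]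
  have h2 : (S.card : ℝ) ≤
      (⌊(N : ℝ) * (2 * δ * B + 1)⌋₊ : ℝ) * (2 * B + 1) ^ (Fintype.card ι - 1) := by
    have h3 := h1.trans (Nat.mul_le_mul_left _ himg)
    exact_mod_cast h3
  refine h2.trans ?_
  refine mul_le_mul_of_nonneg_right (Nat.floor_le (by positivity)) (by positivity)

open Classical in
theorem smN_int (M : ι → ℤ) (B : ℕ) (hB : 1 ≤ B) (δ : ℝ) (hδ : 0 ≤ δ) :
    SmN δ (ENNReal.ofReal ((2 * δ * B + 1) / (2 * B + 1)))
      (fun S => ENNReal.ofReal ((((box ι B).filter fun e => scl M B e ∈ S).card : ℝ) /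
        (2 * B + 1) ^ Fintype.card ι)) where
  empty := by simp
  mono S T h := by
    refine ENNReal.ofReal_le_ofReal ?_
    refine div_le_div_of_nonneg_right ?_ (by positivity)
    exact_mod_cast Finset.card_le_card (Finset.monotone_filter_right _ fun e _ he => h he)
  union S T := by
    rw [← ENNReal.ofReal_add (by positivity) (by positivity), ← add_div]
    refine ENNReal.ofReal_le_ofReal ?_
    refine div_le_div_of_nonneg_right ?_ (by positivity)
    refine le_trans (b := ((((box ι B).filter fun e => scl M B e ∈ S) ∪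
      (box ι B).filter fun e => scl M B e ∈ T).card : ℝ)) ?_ ?_
    · norm_cast
      refine Finset.card_le_card ?_
      intro e he
      simp only [Finset.mem_filter, Set.mem_union] at he
      obtain ⟨h2, h3 | h3⟩ := he
      · exact Finset.mem_union_left _ (Finset.mem_filter.2 ⟨h2, h3⟩)
      · exact Finset.mem_union_right _ (Finset.mem_filter.2 ⟨h2, h3⟩)
    · norm_cast
      exact Finset.card_union_le _ _
  slice p N E _ h := by
    rw [← ENNReal.ofReal_natCast, ← ENNReal.ofReal_mul (by positivity)]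
    refine ENNReal.ofReal_le_ofReal ?_
    have h1 := slice_card M B hB δ hδ p N E h
    have h2 : Fintype.card ι = (Fintype.card ι - 1) + 1 := by
      have : 0 < Fintype.card ι := Fintype.card_pos_iff.2 ⟨p⟩
      omega
    have h3 : (0 : ℝ) < 2 * B + 1 := by positivity
    rw [h2, pow_succ, ← mul_div_assoc, div_le_div_iff₀ (by positivity) h3]
    calc _ ≤ ((N * (2 * δ * B + 1)) * (2 * B + 1) ^ (Fintype.card ι - 1)) * (2 * B + 1) :=
          mul_le_mul_of_nonneg_right h1 h3.le
      _ = _ := by ring

end Pool.Agent.Y94.SL
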