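import Mathlib

set_option autoImplicit false

/-!
# Small values of polynomials in one variable

If a real polynomial of degree at most `d` is small at `d + 1` points of `[-X, X]` with pairwise
distances at least `δ`, then its coefficients are small. So the set where it is small, relative to a
coefficient, is covered by `d` intervals of length `2 * δ`.
-/

namespace Pool.Agent.Y94.SL

open Polynomial

theorem coeff_bound {δ X : ℝ} (hδ : 0 < δ) (hδ1 : δ ≤ 1) (hX : 0 ≤ X) : ∀ (d : ℕ) (Q : ℝ[X])
    (e : ℝ) (S : Finset ℝ), 0 ≤ e → Q.natDegree ≤ d → S.card = d + 1 → (∀ y ∈ S, |y| ≤ X) →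
    (∀ y ∈ S, ∀ z ∈ S, y ≠ z → δ ≤ |y - z|) → (∀ y ∈ S, |Q.eval y| ≤ e) →
    ∀ j, |Q.coeff j| ≤ (4 * (1 + X) / δ) ^ d * e := by
  intro d
  induction d with
  | zero =>
    intro Q e S he hQ hS hSX hSd hSe j
    obtain ⟨y, hy⟩ : S.Nonempty := by
      rw [← Finset.card_pos]
      omega
    have h1 : Q = C (Q.coeff 0) := eq_C_of_natDegree_le_zero hQ
    have h2 := hSe y hy
    rw [h1, eval_C] at h2
    rw [pow_zero, one_mul]
    rcases Nat.eq_zero_or_pos j with hj | hj
    · rw [hj]
      exact h2
    · rw [h1, coeff_C_of_ne_zero (by omega), abs_zero]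
      exact he
  | succ d ih =>
    intro Q e S he hQ hS hSX hSd hSe j
    obtain ⟨a, ha⟩ : S.Nonempty := by
      rw [← Finset.card_pos]
      omega
    set q : ℝ[X] := (Q - C (Q.eval a)) /ₘ (Polynomial.X - C a) with hq
    have hroot : (Q - C (Q.eval a)).IsRoot a := by
      simp [IsRoot]
    have hmul : (Polynomial.X - C a) * q = Q - C (Q.eval a) := by
      rw [hq]
      exact mul_divByMonic_eq_iff_isRoot.2 hroot
    have hqd : q.natDegree ≤ d := by
      rw [hq, natDegree_divByMonic _ (monic_X_sub_C a), natDegree_X_sub_C]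
      have h1 : (Q - C (Q.eval a)).natDegree ≤ d + 1 := by
        refine (natDegree_sub_le _ _).trans ?_
        rw [natDegree_C]
        omega
      omega
    have hqe : ∀ y ∈ S.erase a, |q.eval y| ≤ 2 * e / δ := by
      intro y hy
      obtain ⟨hya, hyS⟩ := Finset.mem_erase.1 hy
      have h1 := congrArg (Polynomial.eval y) hmul
      simp only [eval_mul, eval_sub, eval_X, eval_C] at h1
      have h2 := hSd y hyS a ha hya
      have h3 : |y - a| * |q.eval y| ≤ 2 * e := by
        rw [← abs_mul, h1]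
        refine (abs_sub _ _).trans ?_
        have := hSe y hyS
        have := hSe a ha
        linarith
      rw [le_div_iff₀ hδ, mul_comm]
      exact (mul_le_mul_of_nonneg_right h2 (abs_nonneg _)).trans h3
    have hih := ih q (2 * e / δ) (S.erase a) (by positivity) hqd
      (by rw [Finset.card_erase_of_mem ha, hS]; rfl)
      (fun y hy => hSX y (Finset.mem_of_mem_erase hy))
      (fun y hy z hz => hSd y (Finset.mem_of_mem_erase hy) z (Finset.mem_of_mem_erase hz)) hqe
    have hQ' : Q = (Polynomial.X - C a) * q + C (Q.eval a) := by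
      rw [hmul]
      ring
    have haX := hSX a ha
    have hae := hSe a ha
    set K : ℝ := (4 * (1 + X) / δ) ^ d * (2 * e / δ) with hK
    have hK0 : 0 ≤ K := by positivity
    have hcoef : |Q.coeff j| ≤ K + X * K + e := by
      rw [hQ', sub_mul, coeff_add, coeff_sub, coeff_C_mul]
      have h1 : |(Polynomial.X * q).coeff j| ≤ K := by
        rcases Nat.eq_zero_or_pos j with hj | hj
        · rw [hj]
          simp only [mul_coeff_zero, coeff_X_zero, zero_mul, abs_zero]
          exact hK0
        · obtain ⟨i, rfl⟩ : ∃ i, j = i + 1 := ⟨j - 1, by omega⟩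
          rw [coeff_X_mul]
          exact hih i
      have h2 : |a * q.coeff j| ≤ X * K := by
        rw [abs_mul]
        exact mul_le_mul haX (hih j) (abs_nonneg _) hX
      have h3 : |(C (Q.eval a)).coeff j| ≤ e := by
        rw [coeff_C]
        split_ifs
        · exact hae
        · rw [abs_zero]
          exact he
      calc _ ≤ |(Polynomial.X * q).coeff j - a * q.coeff j| + |(C (Q.eval a)).coeff j| :=
            abs_add_le _ _
        _ ≤ |(Polynomial.X * q).coeff j| + |a * q.coeff j| + |(C (Q.eval a)).coeff j| := by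
            linarith [abs_sub ((Polynomial.X * q).coeff j) (a * q.coeff j)]
        _ ≤ _ := by linarith
    refine hcoef.trans ?_
    have h4 : (1 : ℝ) ≤ (4 * (1 + X) / δ) ^ d := by
      refine one_le_pow₀ ?_
      rw [le_div_iff₀ hδ]
      linarith
    have h5 : e ≤ (4 * (1 + X) / δ) ^ d * (2 * (1 + X) / δ) * e := by
      have h6 : (1 : ℝ) ≤ 2 * (1 + X) / δ := by
        rw [le_div_iff₀ hδ]
        linarith
      have h7 : (1 : ℝ) ≤ (4 * (1 + X) / δ) ^ d * (2 * (1 + X) / δ) := by
        nlinarith
      exact le_mul_of_one_le_left he h7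
    calc K + X * K + e = (4 * (1 + X) / δ) ^ d * (2 * (1 + X) / δ) * e + e := by
          rw [hK]
          ring
      _ ≤ (4 * (1 + X) / δ) ^ d * (2 * (1 + X) / δ) * e +
          (4 * (1 + X) / δ) ^ d * (2 * (1 + X) / δ) * e := by linarith
      _ = (4 * (1 + X) / δ) ^ (d + 1) * e := by
          rw [pow_succ]
          ring

/-- **Covering.** -/
theorem cover {δ X : ℝ} (hδ : 0 < δ) (hδ1 : δ ≤ 1) (hX : 0 ≤ X) (d : ℕ) (Q : ℝ[X])
    (hQ : Q.natDegree ≤ d) (j : ℕ) (hj : Q.coeff j ≠ 0) :
    ∃ A : Finset ℝ, A.card ≤ d ∧ ∀ y, |y| ≤ X →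
      |Q.eval y| < (δ / (8 * (1 + X))) ^ d * |Q.coeff j| → ∃ a ∈ A, a ≤ y ∧ y ≤ a + 2 * δ := by
  classical
  set ε : ℝ := (δ / (8 * (1 + X))) ^ d with hε
  have hε0 : 0 < ε := by positivity
  have hjp : 0 < |Q.coeff j| := abs_pos.2 hj
  set P : ℕ → Prop := fun k => ∃ S : Finset ℝ, S.card = k ∧ (∀ y ∈ S, |y| ≤ X) ∧
    (∀ y ∈ S, ∀ z ∈ S, y ≠ z → δ ≤ |y - z|) ∧ ∀ y ∈ S, |Q.eval y| < ε * |Q.coeff j| with hP
  have hPd : ∀ k, P k → k ≤ d := by
    rintro k ⟨S, hk, h1, h2, h3⟩
    by_contra hlt
    obtain ⟨S', hS', hcard⟩ := Finset.exists_subset_card_eq (show d + 1 ≤ S.card by omega)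
    have h4 := coeff_bound hδ hδ1 hX d Q (ε * |Q.coeff j|) S' (by positivity) hQ hcard
      (fun y hy => h1 y (hS' hy)) (fun y hy z hz => h2 y (hS' hy) z (hS' hz))
      (fun y hy => (h3 y (hS' hy)).le) j
    have h5 : (4 * (1 + X) / δ) ^ d * (ε * |Q.coeff j|) = (1 / 2) ^ d * |Q.coeff j| := by
      rw [hε, ← mul_assoc, ← mul_pow]
      congr 2
      field_simp
      ring
    rw [h5] at h4
    rcases Nat.eq_zero_or_pos d with hd | hd
    · -- degree zero: strict inequality at a point
      subst hd
      obtain ⟨y, hy⟩ : S'.Nonempty := by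
        rw [← Finset.card_pos]
        omega
      have h6 := h3 y (hS' hy)
      have h7 : Q = C (Q.coeff 0) := eq_C_of_natDegree_le_zero hQ
      have h8 : j = 0 := by
        by_contra h0
        apply hj
        rw [h7, coeff_C_of_ne_zero h0]
      subst h8
      rw [h7, eval_C, hε, pow_zero, one_mul] at h6
      simp only [coeff_C_zero, lt_self_iff_false] at h6
    · have h6 : ((1 : ℝ) / 2) ^ d ≤ 1 / 2 := by
        calc ((1 : ℝ) / 2) ^ d ≤ (1 / 2) ^ 1 :=
              pow_le_pow_of_le_one (by norm_num) (by norm_num) hd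
          _ = 1 / 2 := pow_one _
      nlinarith
  have hP0 : P 0 := ⟨∅, rfl, by simp, by simp, by simp⟩
  obtain ⟨S, hk, h1, h2, h3⟩ : P (Nat.findGreatest P d) := Nat.findGreatest_spec (Nat.zero_le d) hP0
  refine ⟨S.image fun y => y - δ, Finset.card_image_le.trans (by
    have := hPd _ ⟨S, rfl, h1, h2, h3⟩
    exact this), ?_⟩
  intro y hy hyQ
  by_contra hcon
  push Not at hcon
  have hfar : ∀ z ∈ S, δ ≤ |y - z| := by
    intro z hz
    by_contra hlt
    push Not at hlt
    rw [abs_lt] at hlt
    have h4 := hcon (z - δ) (Finset.mem_image_of_mem _ hz) (by linarith [hlt.1])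
    linarith [hlt.2]
  have hyS : y ∉ S := by
    intro h
    have := hfar y h
    rw [sub_self, abs_zero] at this
    linarith
  have hnew : P (S.card + 1) := by
    refine ⟨insert y S, Finset.card_insert_of_notMem hyS, ?_, ?_, ?_⟩
    · intro z hz
      rcases Finset.mem_insert.1 hz with rfl | hz
      · exact hy
      · exact h1 z hz
    · intro z hz w hw hzw
      rcases Finset.mem_insert.1 hz with rfl | hz'
      · rcases Finset.mem_insert.1 hw with rfl | hw'
        · exact absurd rfl hzw
        · exact hfar w hw'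
      · rcases Finset.mem_insert.1 hw with rfl | hw'
        · rw [abs_sub_comm]
          exact hfar z hz'
        · exact h2 z hz' w hw' hzw
    · intro z hz
      rcases Finset.mem_insert.1 hz with rfl | hz
      · exact hyQ
      · exact h3 z hz
  have h5 := hPd _ hnew
  have h6 := Nat.le_findGreatest h5 hnew
  omega

end Pool.Agent.Y94.SL
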