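import Pool.Agent.Y648.CX.All
import Pool.Agent.Y94.SL.Det

set_option autoImplicit false

/-!
# The algorithm: more fuel, correctness on all instances, and few windows
-/

namespace Pool.Agent.Y94.SL

open Matrix Pool.Agent.H558R2 Pool.Agent.H622R3.SM Pool.Agent.Y648.CS Pool.Agent.Y648.CS.V

theorem run_succ (O : Set (List Bool)) (α : List Outcome → List Instr × Test) :
    ∀ (k : ℕ) (h : List Outcome) (ρ : Reg → ℝ) (r : Bool × List ℝ × ℕ),
      run O α k h ρ = some r → run O α (k + 1) h ρ = some r := by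
  intro k
  induction k with
  | zero =>
    intro h ρ r hr
    exact absurd hr (by simp [run])
  | succ k ih =>
    intro h ρ r hr
    rw [run] at hr ⊢
    cases he : exec (α h).1 ρ with
    | none =>
      rw [he] at hr
      exact absurd hr (by simp)
    | some u =>
      rw [he] at hr
      simp only [Option.bind_some] at hr ⊢
      cases ht : (α h).2 with
      | answer a =>
        rw [ht] at hr
        exact hr
      | sign x =>
        rw [ht] at hr
        simp only [Option.map_eq_some_iff] at hr ⊢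
        obtain ⟨a, ha, hb⟩ := hr
        exact ⟨a, ih _ _ _ ha, hb⟩
      | ask w =>
        rw [ht] at hr
        simp only [Option.map_eq_some_iff] at hr ⊢
        obtain ⟨a, ha, hb⟩ := hr
        exact ⟨a, ih _ _ _ ha, hb⟩

theorem run_mono (O : Set (List Bool)) (α : List Outcome → List Instr × Test) {k k' : ℕ}
    (hk : k ≤ k') {h : List Outcome} {ρ : Reg → ℝ} {r : Bool × List ℝ × ℕ}
    (hr : run O α k h ρ = some r) : run O α k' h ρ = some r := by
  induction hk with
  | refl => exact hr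
  | step _ ih => exact run_succ O α _ _ _ _ ih

theorem run_unique (O : Set (List Bool)) (α : List Outcome → List Instr × Test) {k k' : ℕ}
    {h : List Outcome} {ρ : Reg → ℝ} {r r' : Bool × List ℝ × ℕ}
    (hr : run O α k h ρ = some r) (hr' : run O α k' h ρ = some r') : r = r' := by
  have h1 := run_mono O α (le_max_left k k') hr
  have h2 := run_mono O α (le_max_right k k') hr'
  rw [h1] at h2
  exact Option.some_injective _ h2

/-- The algorithm stops on the instance `(A, b)` after at most `N` elementary steps, without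
dividing by zero. -/
def StopsIn (α : Alg) {m n : ℕ} (A : Matrix (Fin m) (Fin n) ℝ) (b : Fin m → ℝ) (N : ℕ) : Prop :=
  ∃ k ans nums steps, run ∅ (α m n) k [] (start A b) = some (ans, nums, steps) ∧ steps ≤ N

/-- The algorithm `α` decides linear feasibility on all real instances; on rational instances, the
number of steps is at most `p` of the encoding length of `A`, and all numbers computed have
encoding length at most `p` of the encoding length of `(A, b)`. -/
def Correct (α : Alg) (p : Polynomial ℕ) : Prop :=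
  ∀ m n : ℕ, 1 ≤ m → 1 ≤ n → ∀ (A : Matrix (Fin m) (Fin n) ℝ) (b : Fin m → ℝ),
    ∃ k ans nums steps, run ∅ (α m n) k [] (start A b) = some (ans, nums, steps) ∧
      (ans = true ↔ ∃ x : Fin n → ℝ, b ≤ A.mulVec x) ∧ steps ≤ p.eval (m + n + 2 ^ m) ∧
      ∀ (A' : Matrix (Fin m) (Fin n) ℚ) (b' : Fin m → ℚ), (∀ i j, ((A' i j : ℚ) : ℝ) = A i j) →
        (∀ i, ((b' i : ℚ) : ℝ) = b i) → steps ≤ p.eval (inputLength A' 0) ∧
          ∀ v ∈ nums, ∃ q : ℚ, (q : ℝ) = v ∧ bitLength q ≤ p.eval (inputLength A' b')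

/-- The number of steps on all instances derived from `A`, with `m'` rows and `n'` columns and
arbitrary right-hand sides, is at most `p (m' + n' + N)`. -/
def Strong (α : Alg) (p : Polynomial ℕ) (N : ℕ) {m n : ℕ} (A : Matrix (Fin m) (Fin n) ℝ) : Prop :=
  ∀ m' n' : ℕ, 1 ≤ m' → 1 ≤ n' → ∀ A' : Matrix (Fin m') (Fin n') ℝ, Derived A A' →
    ∀ b : Fin m' → ℝ, StopsIn α A' b (p.eval (m' + n' + N))

theorem strong_of_near {p q : Polynomial ℕ}
    (hp : ∀ m n : ℕ, 1 ≤ m → 1 ≤ n →
      ∀ (A : Matrix (Fin m) (Fin n) ℝ) (b : Fin m → ℝ) (r : ℕ), NearE r A →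
      ∃ ans nums steps,
        run ∅ (W.algW m n) (p.eval (m + n + r)) [] (start A b) = some (ans, nums, steps) ∧
        (ans = true ↔ ∃ x : Fin n → ℝ, b ≤ A.mulVec x) ∧ steps ≤ p.eval (m + n + r) ∧
        ∀ (A' : Matrix (Fin m) (Fin n) ℚ) (b' : Fin m → ℚ), (∀ i j, ((A' i j : ℚ) : ℝ) = A i j) →
          (∀ i, ((b' i : ℚ) : ℝ) = b i) →
          ∀ v ∈ nums, ∃ q : ℚ, (q : ℝ) = v ∧ bitLength q ≤ p.eval (inputLength A' b' + r))
    {m n N r : ℕ} {A : Matrix (Fin m) (Fin n) ℝ} {Wn : Finset ℝ} {K : ℝ}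
    (hA : Win Wn K A) (hW : ∀ w ∈ Wn, 0 < w) (hK : 1 ≤ K) (hr1 : 1 ≤ r)
    (hr : Wn.card * Wn.card ≤ r) (hK2 : K ^ 2 ≤ 2 ^ r) (hrN : r ≤ q.eval N) :
    Strong W.algW (p.comp (Polynomial.X + q)) N A := by
  intro m' n' hm' hn' A' hD b
  have hN := near_of_win hA hW hK hr1 hr hK2 A' hD
  obtain ⟨ans, nums, steps, h1, -, h2, -⟩ := hp m' n' hm' hn' A' b r hN
  refine ⟨_, ans, nums, steps, h1, h2.trans ?_⟩
  rw [Polynomial.eval_comp, Polynomial.eval_add, Polynomial.eval_X]
  refine pe_mono p ?_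
  have := pe_mono q (show N ≤ m' + n' + N by omega)
  omega

/-- Rational matrices have few scales. -/
theorem rat_near : ∃ q : Polynomial ℕ, ∀ (m n : ℕ), 1 ≤ m → ∀ (A : Matrix (Fin m) (Fin n) ℚ),
    NearE (q.eval (inputLength A 0)) (Matrix.of fun i j => ((A i j : ℚ) : ℝ)) := by
  obtain ⟨q, hq⟩ := Pool.Agent.Y648.CS.W.t_SPAN
  obtain ⟨q', hq'⟩ := Pool.Agent.Y648.CS.V.t_RAT
  refine ⟨q.comp (Polynomial.X + 1 + q'), fun m n hm A => ?_⟩
  have h1 := hq m n 1 _ _ (hq' m n A)
  set A₁ : Matrix (Fin m) (Fin n) ℝ := Matrix.of fun i j => ((A i j : ℚ) : ℝ) with hA₁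
  have hle : q.eval (m + n + 1 + q'.eval (inputLength A 0)) ≤
      (q.comp (Polynomial.X + 1 + q')).eval (inputLength A 0) := by
    simp only [Polynomial.eval_comp, Polynomial.eval_add, Polynomial.eval_X,
      Polynomial.eval_one]
    refine pe_mono q ?_
    have := FL.le_inputLength hm A 0
    omega
  refine ⟨lker A₁, Or.inl ⟨le_refl _, by omega⟩, ?_⟩
  choose S h2 h3 h4 using h1
  refine ⟨S, fun i j => ⟨(h2 i j).trans hle, h3 i j⟩, fun C hC i j hi hj => ?_⟩
  obtain ⟨s, hs, h5, h6⟩ := h4 i j C (ele_circ hC) hi hj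
  refine ⟨s, hs, h5, h6.trans ?_⟩
  exact mul_le_mul_of_nonneg_right (pow_le_pow_right₀ (by norm_num) hle) (h3 i j s hs).le

theorem inputLength_zero_le {m n : ℕ} (A : Matrix (Fin m) (Fin n) ℚ) (b : Fin m → ℚ) :
    inputLength A 0 ≤ inputLength A b := by
  unfold inputLength
  refine Nat.add_le_add_left (Finset.sum_le_sum fun i _ => ?_) _
  unfold bitLength
  have h1 : Nat.size ((0 : Fin m → ℚ) i).num.natAbs = 0 := by simp
  have h2 : ((0 : Fin m → ℚ) i).den = 1 := by simp
  rw [h1, h2]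
  have h3 : 1 ≤ (b i).den := (b i).pos
  have h4 := Nat.size_le_size h3
  omega

theorem near_tot {m n : ℕ} (A : Matrix (Fin m) (Fin n) ℝ) : NearE (2 ^ m) A :=
  ⟨lker A, Or.inl ⟨le_refl _, by omega⟩, Pool.Agent.Y648.CS.V.t_TOTG m (lker A)⟩

/-- Correctness. -/
theorem correct {p q qr : Polynomial ℕ}
    (hp : ∀ m n : ℕ, 1 ≤ m → 1 ≤ n →
      ∀ (A : Matrix (Fin m) (Fin n) ℝ) (b : Fin m → ℝ) (r : ℕ), NearE r A →
      ∃ ans nums steps,
        run ∅ (W.algW m n) (p.eval (m + n + r)) [] (start A b) = some (ans, nums, steps) ∧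
        (ans = true ↔ ∃ x : Fin n → ℝ, b ≤ A.mulVec x) ∧ steps ≤ p.eval (m + n + r) ∧
        ∀ (A' : Matrix (Fin m) (Fin n) ℚ) (b' : Fin m → ℚ), (∀ i j, ((A' i j : ℚ) : ℝ) = A i j) →
          (∀ i, ((b' i : ℚ) : ℝ) = b i) →
          ∀ v ∈ nums, ∃ q : ℚ, (q : ℝ) = v ∧ bitLength q ≤ p.eval (inputLength A' b' + r))
    (hqr : ∀ (m n : ℕ), 1 ≤ m → ∀ (A : Matrix (Fin m) (Fin n) ℚ),
      NearE (qr.eval (inputLength A 0)) (Matrix.of fun i j => ((A i j : ℚ) : ℝ)))
    (hq : ∀ N, qr.eval N ≤ q.eval N) :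
    Correct W.algW (p.comp (Polynomial.X + q)) := by
  intro m n hm hn A b
  obtain ⟨ans, nums, steps, h1, h2, h3, -⟩ := hp m n hm hn A b (2 ^ m) (near_tot A)
  refine ⟨_, ans, nums, steps, h1, h2, h3.trans ?_, ?_⟩
  · rw [Polynomial.eval_comp, Polynomial.eval_add, Polynomial.eval_X]
    exact pe_mono p (by omega)
  · intro A' b' hA' hb'
    have hAA : (Matrix.of fun i j => ((A' i j : ℚ) : ℝ)) = A := by
      ext i j
      exact hA' i j
    have hnear := hqr m n hm A'
    rw [hAA] at hnear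
    obtain ⟨ans', nums', steps', k1, -, k3, k4⟩ := hp m n hm hn A b _ hnear
    have he := run_unique ∅ _ h1 k1
    obtain ⟨rfl, he2⟩ := Prod.ext_iff.1 he
    obtain ⟨h5, h6⟩ := Prod.ext_iff.1 he2
    simp only at h5 h6
    subst h5
    subst h6
    have hL := FL.le_inputLength hm A' 0
    have hLb := inputLength_zero_le A' b'
    constructor
    · refine k3.trans ?_
      rw [Polynomial.eval_comp, Polynomial.eval_add, Polynomial.eval_X]
      refine pe_mono p ?_
      have := hq (inputLength A' 0)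
      omega
    · intro v hv
      obtain ⟨y, hy1, hy2⟩ := k4 A' b' hA' hb' v hv
      refine ⟨y, hy1, hy2.trans ?_⟩
      rw [Polynomial.eval_comp, Polynomial.eval_add, Polynomial.eval_X]
      refine pe_mono p ?_
      have h7 := hq (inputLength A' 0)
      have h8 := pe_mono q hLb
      omega

end Pool.Agent.Y94.SL
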