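import Pool.Agent.Y94.SL.Minors
import Pool.Agent.Y94.SL.Models
import Pool.Agent.Y94.SL.Run

set_option autoImplicit false

/-!
# Smoothed complexity of linear feasibility: real and integer parameters
-/

namespace Pool.Agent.Y94.SL

open Matrix MeasureTheory Pool.Agent.H622R3.SM Pool.Agent.Y648.CS Pool.Agent.Y648.CS.V
open scoped ENNReal Nat

variable {m n k l : ℕ}

/-- Density at most `2 ^ L`, and tails of order `2 ^ D / y`. -/
def Spread (D L : ℕ) (μ : Measure ℝ) : Prop :=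
  (∀ u v, μ (Set.Icc u v) ≤ ENNReal.ofReal (2 ^ L * (v - u))) ∧
  ∀ i : ℕ, μ {y | 2 ^ (D + i) < |y|} ≤ ENNReal.ofReal ((1 / 2) ^ i)

/-- The engine. -/
def Eng (p : Polynomial ℕ) : Prop :=
  ∀ m n : ℕ, 1 ≤ m → 1 ≤ n →
    ∀ (A : Matrix (Fin m) (Fin n) ℝ) (b : Fin m → ℝ) (r : ℕ), NearE r A →
    ∃ ans nums steps,
      run ∅ (W.algW m n) (p.eval (m + n + r)) [] (start A b) = some (ans, nums, steps) ∧
      (ans = true ↔ ∃ x : Fin n → ℝ, b ≤ A.mulVec x) ∧ steps ≤ p.eval (m + n + r) ∧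
      ∀ (A' : Matrix (Fin m) (Fin n) ℚ) (b' : Fin m → ℚ), (∀ i j, ((A' i j : ℚ) : ℝ) = A i j) →
        (∀ i, ((b' i : ℚ) : ℝ) = b i) → ∀ v ∈ nums, ∃ q : ℚ, (q : ℝ) = v ∧
          H558R2.bitLength q ≤ p.eval (H558R2.inputLength A' b' + r)

/-- The exponent of the number of minors and variables. -/
def Qn (m n l d : ℕ) : ℕ := (m + n) * n + 2 * n + l + d

theorem count_le (m n l d : ℕ) :
    (n + 1) * (m * n) ^ n * (l * (n * d)) ≤ 2 ^ Qn m n l d := by
  have hm : m ≤ 2 ^ m := Nat.lt_two_pow_self.le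
  have hn : n ≤ 2 ^ n := Nat.lt_two_pow_self.le
  have hn1 : n + 1 ≤ 2 ^ n := Nat.lt_two_pow_self
  have hl : l ≤ 2 ^ l := Nat.lt_two_pow_self.le
  have hd : d ≤ 2 ^ d := Nat.lt_two_pow_self.le
  calc (n + 1) * (m * n) ^ n * (l * (n * d))
      ≤ 2 ^ n * (2 ^ m * 2 ^ n) ^ n * (2 ^ l * (2 ^ n * 2 ^ d)) := by gcongr
    _ = 2 ^ Qn m n l d := by
        rw [← pow_add, ← pow_mul, ← pow_add, ← pow_add, ← pow_add, ← pow_add]
        congr 1
        unfold Qn
        ring

/-- The exponent of the width of the windows. -/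
def kap (n d l N s x e : ℕ) : ℕ :=
  s + x * (n * d) + 2 * (N + (N + s) * N) + (e + 4 + x) * (n * d) * l

/-- The number of scales. -/
def rG (n d l N s x e : ℕ) : ℕ := (N * (n * d + 1)) ^ 2 + 2 * kap n d l N s x e + 1

/-- The constant. -/
theorem const_le (k n d l s x e : ℕ) :
    (2 ^ s * (2 ^ x : ℝ) ^ (n * d) * 2 ^ wd k (n * d) s) /
      ((((1 / 2) ^ e / (8 * (1 + 2 ^ x))) ^ (n * d)) ^ l / 2 ^ wd k (n * d) s) ≤
        2 ^ kap n d l ((n * d + 1) ^ k) s x e := by
  set N := n * d with hN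
  set ω := wd k N s with hω
  have hx : (1 : ℝ) ≤ 2 ^ x := one_le_pow₀ (by norm_num)
  have h1 : (1 / 2 : ℝ) ^ (e + 4 + x) ≤ (1 / 2) ^ e / (8 * (1 + 2 ^ x)) := by
    rw [le_div_iff₀ (by positivity)]
    have h2 : (1 / 2 : ℝ) ^ (e + 4 + x) * (16 * 2 ^ x) = (1 / 2) ^ e := by
      rw [pow_add, pow_add]
      have h3 : (1 / 2 : ℝ) ^ x * 2 ^ x = 1 := by
        rw [← mul_pow]
        norm_num
      calc (1 / 2 : ℝ) ^ e * (1 / 2) ^ 4 * (1 / 2) ^ x * (16 * 2 ^ x)
          = (1 / 2) ^ e * ((1 / 2) ^ x * 2 ^ x) := by ring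
        _ = _ := by rw [h3, mul_one]
    calc (1 / 2 : ℝ) ^ (e + 4 + x) * (8 * (1 + 2 ^ x))
        ≤ (1 / 2) ^ (e + 4 + x) * (16 * 2 ^ x) := by
          refine mul_le_mul_of_nonneg_left ?_ (by positivity)
          linarith
      _ = _ := h2
  have h4 : (1 / 2 : ℝ) ^ ((e + 4 + x) * N * l) ≤
      (((1 / 2) ^ e / (8 * (1 + 2 ^ x))) ^ N) ^ l := by
    rw [pow_mul, pow_mul]
    exact pow_le_pow_left₀ (by positivity) (pow_le_pow_left₀ (by positivity) h1 _) _
  rw [div_le_iff₀ (by positivity)]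
  have h5 : (2 : ℝ) ^ kap n d l ((N + 1) ^ k) s x e =
      2 ^ s * (2 ^ x) ^ N * (2 ^ ω * 2 ^ ω) * 2 ^ ((e + 4 + x) * N * l) := by
    unfold kap
    rw [← hN]
    have h6 : ω = (N + 1) ^ k + ((N + 1) ^ k + s) * (N + 1) ^ k := rfl
    rw [pow_add, pow_add, pow_add, ← h6, two_mul ω, pow_add 2 ω ω, pow_mul 2 x N]
  rw [h5]
  have h7 : (2 : ℝ) ^ ((e + 4 + x) * N * l) * (1 / 2) ^ ((e + 4 + x) * N * l) = 1 := by
    rw [← mul_pow]
    norm_num
  have h8 : (2 : ℝ) ^ s * (2 ^ x) ^ N * (2 ^ ω * 2 ^ ω) * 2 ^ ((e + 4 + x) * N * l) *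
      ((((1 / 2) ^ e / (8 * (1 + 2 ^ x))) ^ N) ^ l / 2 ^ ω) =
      (2 ^ s * (2 ^ x) ^ N * 2 ^ ω) * (2 ^ ((e + 4 + x) * N * l) *
        (((1 / 2) ^ e / (8 * (1 + 2 ^ x))) ^ N) ^ l) := by
    field_simp
  rw [h8]
  have h9 : (1 : ℝ) ≤ 2 ^ ((e + 4 + x) * N * l) *
      (((1 / 2) ^ e / (8 * (1 + 2 ^ x))) ^ N) ^ l :=
    h7.symm.le.trans (mul_le_mul_of_nonneg_left h4 (by positivity))
  exact le_mul_of_one_le_right (by positivity) h9

theorem Win.mono {W : Finset ℝ} {K K' : ℝ} {A : Matrix (Fin m) (Fin n) ℝ} (h : Win W K A)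
    (hW : ∀ w ∈ W, 0 < w) (hK : K ≤ K') : Win W K' A := by
  intro q f g hd
  obtain ⟨w, hw, h1, h2⟩ := h q f g hd
  exact ⟨w, hw, h1, h2.trans (mul_le_mul_of_nonneg_right hK (hW w hw).le)⟩

/-- From windows to strongly polynomial time. -/
theorem strong_of_win {p q : Polynomial ℕ} (hp : Eng p) {d N s x e T : ℕ} {W : Finset ℝ} {K : ℝ}
    (hW : ∀ w ∈ W, 0 < w) (hN : W.card ≤ N * (n * d + 1))
    {A : Matrix (Fin m) (Fin n) ℝ} (hA : Win W K A) (hK : K ≤ 2 ^ kap n d l N s x e)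
    (hT : rG n d l N s x e ≤ q.eval T) :
    Strong Y648.CS.W.algW (p.comp (Polynomial.X + q)) T A := by
  refine strong_of_near hp (q := q) (r := rG n d l N s x e) (hA.mono hW hK) hW
    (one_le_pow₀ (by norm_num)) (by unfold rG; omega) ?_ ?_ hT
  · have h2 := Nat.mul_le_mul hN hN
    unfold rG
    rw [pow_two]
    omega
  · rw [← pow_mul]
    refine pow_le_pow_right₀ (by norm_num) ?_
    unfold rG
    omega

/-- Real parameters. -/
theorem real_part {p q : Polynomial ℕ} (hp : Eng p)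
    (hq : ∀ m n l d D L t N : ℕ, rG n d l N (sM n D) (D + (t + 1 + l))
      (Qn m n l d + L + 1 + t + 1) ≤ q.eval (m + n + l + d + D + L + t + N))
    {d D L t : ℕ} (hm : 1 ≤ m) (hn : 1 ≤ n)
    {P : Matrix (Fin m) (Fin n) (MvPolynomial (Fin k ⊕ Fin l) ℤ)}
    (hP : ∀ i j, (P i j).totalDegree ≤ d ∧ len (P i j) ≤ 2 ^ D) (θ : Fin k → ℝ)
    (ν : Fin l → Measure ℝ) (hν : ∀ r, IsProbabilityMeasure (ν r))
    (hS : ∀ r, Spread D L (ν r)) :
    Measure.pi ν {y | ¬ Strong Y648.CS.W.algW (p.comp (Polynomial.X + q))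
      (m + n + l + d + D + L + t + (n * d + 1) ^ k) (evM P θ y)} ≤
        ENNReal.ofReal ((1 / 2) ^ t) := by
  set e := Qn m n l d + L + 1 + t + 1 with he
  set x₀ := D + (t + 1 + l) with hx₀
  have hδ : (0 : ℝ) < (1 / 2) ^ e := by positivity
  have hδ1 : ((1 : ℝ) / 2) ^ e ≤ 1 := pow_le_one₀ (by norm_num) (by norm_num)
  have hX : (1 : ℝ) ≤ 2 ^ x₀ := one_le_pow₀ (by norm_num)
  have hsm := smN_real ν (2 ^ L) ((1 / 2) ^ e) fun r => (hS r).1
  obtain ⟨W, hW1, hW0, E, hE1, hE2⟩ := minors_prob hsm hm hn hδ hδ1 hX hP θ one_pos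
  have hsub : {y | ¬ Strong Y648.CS.W.algW (p.comp (Polynomial.X + q))
      (m + n + l + d + D + L + t + (n * d + 1) ^ k) (evM P θ y)} ⊆
      E ∪ ⋃ r ∈ (Finset.univ : Finset (Fin l)), {y : Fin l → ℝ | 2 ^ x₀ < |y r|} := by
    intro y hy
    by_contra hne
    rw [Set.mem_union, not_or] at hne
    apply hy
    have hb : ∀ r, |y r| ≤ 2 ^ x₀ := by
      intro r
      by_contra hlt
      push Not at hlt
      apply hne.2
      simp only [Set.mem_iUnion]
      exact ⟨r, Finset.mem_univ r, hlt⟩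
    have h1 := hE2 y hne.1 hb
    simp only [one_mul] at h1
    exact strong_of_win hp hW0 hW1 h1 (const_le k n d l (sM n D) x₀ e)
      (hq m n l d D L t ((n * d + 1) ^ k))
  have h1 : Measure.pi ν E ≤ ENNReal.ofReal ((1 / 2) ^ (t + 1)) := by
    refine hE1.trans ?_
    rw [← ENNReal.ofReal_natCast, ← ENNReal.ofReal_mul (by positivity)]
    refine ENNReal.ofReal_le_ofReal ?_
    have h2 : (((n + 1) * (m * n) ^ n * (l * (n * d)) : ℕ) : ℝ) ≤ 2 ^ Qn m n l d := by
      exact_mod_cast count_le m n l d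
    calc (((n + 1) * (m * n) ^ n * (l * (n * d)) : ℕ) : ℝ) * (2 ^ L * (2 * (1 / 2) ^ e))
        ≤ 2 ^ Qn m n l d * (2 ^ L * (2 * (1 / 2) ^ e)) :=
          mul_le_mul_of_nonneg_right h2 (by positivity)
      _ = (1 / 2) ^ (t + 1) := by
          rw [he]
          simp only [one_div, inv_pow, pow_add, pow_one]
          field_simp
  have h3 : Measure.pi ν (⋃ r ∈ (Finset.univ : Finset (Fin l)),
      {y : Fin l → ℝ | 2 ^ x₀ < |y r|}) ≤ ENNReal.ofReal ((1 / 2) ^ (t + 1)) := by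
    refine (measure_biUnion_finset_le _ _).trans ?_
    have h4 : ∀ r ∈ (Finset.univ : Finset (Fin l)),
        Measure.pi ν {y : Fin l → ℝ | 2 ^ x₀ < |y r|} ≤
          ENNReal.ofReal ((1 / 2) ^ (t + 1 + l)) := by
      intro r _
      have h5 : {y : Fin l → ℝ | 2 ^ x₀ < |y r|} =
          (Function.eval r) ⁻¹' {y : ℝ | 2 ^ x₀ < |y|} := rfl
      have hmeas : MeasurableSet {y : ℝ | (2 : ℝ) ^ x₀ < |y|} :=
        measurableSet_lt measurable_const (by fun_prop)
      rw [h5, (measurePreserving_eval ν r).measure_preimage hmeas.nullMeasurableSet]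
      exact (hS r).2 _
    refine (Finset.sum_le_sum h4).trans ?_
    rw [Finset.sum_const, nsmul_eq_mul, ← ENNReal.ofReal_natCast,
      ← ENNReal.ofReal_mul (by positivity)]
    refine ENNReal.ofReal_le_ofReal ?_
    rw [Finset.card_univ, Fintype.card_fin]
    have h6 : (l : ℝ) ≤ 2 ^ l := by exact_mod_cast Nat.lt_two_pow_self.le
    calc (l : ℝ) * (1 / 2) ^ (t + 1 + l)
        ≤ 2 ^ l * (1 / 2) ^ (t + 1 + l) :=
          mul_le_mul_of_nonneg_right h6 (by positivity)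
      _ = (1 / 2) ^ (t + 1) := by
          rw [pow_add (1 / 2 : ℝ) (t + 1), mul_comm, mul_assoc, ← mul_pow]
          norm_num
  refine (measure_mono hsub).trans ((measure_union_le _ _).trans ?_)
  refine (add_le_add h1 h3).trans ?_
  rw [← ENNReal.ofReal_add (by positivity) (by positivity)]
  refine ENNReal.ofReal_le_ofReal ?_
  rw [pow_succ]
  linarith [show (0 : ℝ) ≤ (1 / 2) ^ t by positivity]

/-- Integer parameters. -/
theorem int_part {p q : Polynomial ℕ} (hp : Eng p)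
    (hq1 : ∀ m n l d D t N : ℕ, rG n d l N (sM n D) (D + 1)
      (Qn m n l d + 1 + t) ≤ q.eval (m + n + l + d + D + t + N))
    (hq2 : ∀ m n l d D t N : ℕ,
      rG n d l N (sM n D + (D + (Qn m n l d + 1 + t)) * (n * d)) 0 0 ≤
        q.eval (m + n + l + d + D + t + N))
    {d D t B : ℕ} (hm : 1 ≤ m) (hn : 1 ≤ n) (hB : 1 ≤ B)
    {P : Matrix (Fin m) (Fin n) (MvPolynomial (Fin k ⊕ Fin l) ℤ)}
    (hP : ∀ i j, (P i j).totalDegree ≤ d ∧ len (P i j) ≤ 2 ^ D) (θ : Fin k → ℝ)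
    (M : Fin l → ℤ) (hM : ∀ r, |M r| ≤ 2 ^ D * (B : ℤ)) :
    2 ^ t * {E : Fin l → ℤ | (∀ r, |E r| ≤ B) ∧
      ¬ Strong Y648.CS.W.algW (p.comp (Polynomial.X + q))
        (m + n + l + d + D + t + (n * d + 1) ^ k)
        (evM P θ fun r => ((M r + E r : ℤ) : ℝ))}.ncard ≤ (2 * B + 1) ^ l := by
  classical
  set e₀ := Qn m n l d + 1 + t with he₀
  have hB0 : (0 : ℝ) < B := by exact_mod_cast hB
  rcases Nat.lt_or_ge (2 * B) (2 ^ e₀) with hsmall | hbig
  · -- small integers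
    obtain ⟨W, hW1, hW0, hW⟩ := minors_int (Y := D + e₀) hP θ
    have hempty : {E : Fin l → ℤ | (∀ r, |E r| ≤ B) ∧
        ¬ Strong Y648.CS.W.algW (p.comp (Polynomial.X + q))
          (m + n + l + d + D + t + (n * d + 1) ^ k)
          (evM P θ fun r => ((M r + E r : ℤ) : ℝ))} = ∅ := by
      rw [Set.eq_empty_iff_forall_notMem]
      rintro E ⟨hE, hn'⟩
      apply hn'
      have hy : ∀ r, |M r + E r| ≤ 2 ^ (D + e₀) := by
        intro r
        have h1 := hE r
        have h3 := hM r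
        have h4 := abs_add_le (M r) (E r)
        have h5 : (2 : ℤ) * B < 2 ^ e₀ := by exact_mod_cast hsmall
        have h6 : (1 : ℤ) ≤ 2 ^ D := one_le_pow₀ (by norm_num)
        have h7 : (0 : ℤ) ≤ B := by positivity
        rw [pow_add]
        nlinarith
      have hwin := hW (fun r => M r + E r) hy
      refine strong_of_win (l := l) (d := d) (N := (n * d + 1) ^ k)
        (s := sM n D + (D + e₀) * (n * d)) (x := 0) (e := 0) hp hW0 ?_ hwin ?_
        (hq2 m n l d D t ((n * d + 1) ^ k))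
      · refine hW1.trans ?_
        exact Nat.le_mul_of_pos_right _ (by omega)
      · refine pow_le_pow_right₀ (by norm_num) ?_
        have h6 : wd k (n * d) (sM n D + (D + e₀) * (n * d)) = (n * d + 1) ^ k +
          ((n * d + 1) ^ k + (sM n D + (D + e₀) * (n * d))) * (n * d + 1) ^ k := rfl
        rw [h6]
        unfold kap
        omega
    rw [hempty, Set.ncard_empty, mul_zero]
    exact Nat.zero_le _
  · -- large box
    have hδ : (0 : ℝ) < (1 / 2) ^ e₀ := by positivity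
    have hδ1 : ((1 : ℝ) / 2) ^ e₀ ≤ 1 := pow_le_one₀ (by norm_num) (by norm_num)
    have hX : (1 : ℝ) ≤ 2 ^ (D + 1) := one_le_pow₀ (by norm_num)
    have hsm := smN_int M B hB ((1 / 2) ^ e₀) hδ.le
    obtain ⟨W, hW1, hW0, E, hE1, hE2⟩ := minors_prob hsm hm hn hδ hδ1 hX hP θ hB0
    rw [Fintype.card_fin] at hE1
    have hsub : {e : Fin l → ℤ | (∀ r, |e r| ≤ B) ∧
        ¬ Strong Y648.CS.W.algW (p.comp (Polynomial.X + q))
          (m + n + l + d + D + t + (n * d + 1) ^ k)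
          (evM P θ fun r => ((M r + e r : ℤ) : ℝ))} ⊆
        (((box (Fin l) B).filter fun e => scl M B e ∈ E : Finset (Fin l → ℤ)) :
          Set (Fin l → ℤ)) := by
      rintro e ⟨he, hn'⟩
      rw [Finset.mem_coe, Finset.mem_filter]
      refine ⟨?_, ?_⟩
      · unfold box
        rw [Fintype.mem_piFinset]
        intro r
        rw [Finset.mem_Icc]
        exact abs_le.1 (he r)
      · by_contra hne
        apply hn'
        have hb : ∀ r, |scl M B e r| ≤ 2 ^ (D + 1) := by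
          intro r
          unfold scl
          rw [abs_div, abs_of_pos hB0, div_le_iff₀ hB0]
          have h3 : |((M r : ℝ)) + e r| ≤ 2 ^ D * B + B := by
            have h4 := (abs_add_le (M r) (e r)).trans (add_le_add (hM r) (he r))
            have h5 : ((|M r + e r| : ℤ) : ℝ) ≤ ((2 ^ D * B + B : ℤ) : ℝ) := by
              exact_mod_cast h4
            push_cast at h5
            exact h5
          have h6 : (1 : ℝ) ≤ 2 ^ D := one_le_pow₀ (by norm_num)
          refine h3.trans ?_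
          rw [pow_succ]
          nlinarith
        have heq : (fun r => (B : ℝ) * scl M B e r) = fun r => ((M r + e r : ℤ) : ℝ) := by
          funext r
          unfold scl
          push_cast
          field_simp
        have h1 := hE2 (scl M B e) hne hb
        rw [heq] at h1
        exact strong_of_win hp hW0 hW1 h1 (const_le k n d l (sM n D) (D + 1) e₀)
          (hq1 m n l d D t ((n * d + 1) ^ k))
    have h1 : (((box (Fin l) B).filter fun e => scl M B e ∈ E).card : ℝ) / (2 * B + 1) ^ l ≤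
        (1 / 2) ^ t := by
      have h2 : ENNReal.ofReal ((((box (Fin l) B).filter fun e => scl M B e ∈ E).card : ℝ) /
          (2 * B + 1) ^ l) ≤ ENNReal.ofReal ((1 / 2) ^ t) := by
        refine le_trans hE1 ?_
        rw [← ENNReal.ofReal_natCast, ← ENNReal.ofReal_mul (by positivity)]
        refine ENNReal.ofReal_le_ofReal ?_
        have h2 : (((n + 1) * (m * n) ^ n * (l * (n * d)) : ℕ) : ℝ) ≤ 2 ^ Qn m n l d := by
          exact_mod_cast count_le m n l d
        have h3 : (2 * ((1 : ℝ) / 2) ^ e₀ * B + 1) / (2 * B + 1) ≤ 2 * (1 / 2) ^ e₀ := by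
          rw [div_le_iff₀ (by positivity)]
          have h4 : (2 : ℝ) ^ e₀ ≤ 2 * B := by exact_mod_cast hbig
          have h5 : ((1 : ℝ) / 2) ^ e₀ * 2 ^ e₀ = 1 := by
            rw [← mul_pow]
            norm_num
          nlinarith
        calc (((n + 1) * (m * n) ^ n * (l * (n * d)) : ℕ) : ℝ) *
            ((2 * (1 / 2) ^ e₀ * B + 1) / (2 * B + 1))
            ≤ 2 ^ Qn m n l d * (2 * (1 / 2) ^ e₀) :=
              mul_le_mul h2 h3 (by positivity) (by positivity)
          _ = (1 / 2) ^ t := by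
              rw [he₀]
              simp only [one_div, inv_pow, pow_add, pow_one]
              field_simp
      exact (ENNReal.ofReal_le_ofReal_iff (by positivity)).1 h2
    rw [div_le_iff₀ (by positivity)] at h1
    have h2 := Set.ncard_le_ncard hsub (Finset.finite_toSet _)
    rw [Set.ncard_coe_finset] at h2
    have h3 : ((2 ^ t * ((box (Fin l) B).filter fun e => scl M B e ∈ E).card : ℕ) : ℝ) ≤
        (((2 * B + 1) ^ l : ℕ) : ℝ) := by
      push_cast
      calc (2 : ℝ) ^ t * ((box (Fin l) B).filter fun e => scl M B e ∈ E).card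
          ≤ 2 ^ t * ((1 / 2) ^ t * (2 * B + 1) ^ l) :=
            mul_le_mul_of_nonneg_left h1 (by positivity)
        _ = (2 * B + 1) ^ l := by
            rw [← mul_assoc, ← mul_pow]
            norm_num
    exact (Nat.mul_le_mul_left _ h2).trans (by exact_mod_cast h3)

end Pool.Agent.Y94.SL
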