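import Pool.Agent.Y94.SL.Ball
import Pool.Agent.Y94.SL.Len

set_option autoImplicit false

/-!
# Integer polynomials in `θ` and `y`, as polynomials in `y`

The coefficients are integer combinations, with small coefficients, of the monomials in `θ`.
-/

namespace Pool.Agent.Y94.SL

open MvPolynomial

variable {k l : ℕ}

/-- The exponents of `y`. -/
def ey (γ : (Fin k ⊕ Fin l) →₀ ℕ) : Fin l → ℕ := fun r => γ (Sum.inr r)

/-- The exponents of `θ`. -/
def et (γ : (Fin k ⊕ Fin l) →₀ ℕ) : Fin k → ℕ := fun r => γ (Sum.inl r)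

/-- The set of the exponents of `y` in `F`. -/
def SY (F : MvPolynomial (Fin k ⊕ Fin l) ℤ) : Finset (Fin l → ℕ) := F.support.image ey

/-- The coefficient of `y ^ α`. -/
noncomputable def cY (F : MvPolynomial (Fin k ⊕ Fin l) ℤ) (θ : Fin k → ℝ) (α : Fin l → ℕ) : ℝ :=
  ∑ γ ∈ F.support.filter fun γ => ey γ = α, ((F.coeff γ : ℤ) : ℝ) * mono (et γ) θ

theorem aeval_eq (F : MvPolynomial (Fin k ⊕ Fin l) ℤ) (θ : Fin k → ℝ) (y : Fin l → ℝ) :
    aeval (Sum.elim θ y) F = ∑ γ ∈ F.support, ((F.coeff γ : ℤ) : ℝ) * (mono (et γ) θ * mono (ey γ) y) := by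
  rw [aeval_def, eval₂_eq']
  refine Finset.sum_congr rfl fun γ _ => ?_
  rw [Fintype.prod_sum_type]
  rfl

theorem aeval_pf (F : MvPolynomial (Fin k ⊕ Fin l) ℤ) (θ : Fin k → ℝ) (y : Fin l → ℝ) :
    aeval (Sum.elim θ y) F = pf (SY F) (cY F θ) y := by
  classical
  rw [aeval_eq]
  unfold pf SY
  rw [← Finset.sum_fiberwise_of_maps_to (g := ey) (t := F.support.image ey)
    (fun γ hγ => Finset.mem_image_of_mem _ hγ)]
  refine Finset.sum_congr rfl fun α _ => ?_
  unfold cY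
  rw [Finset.sum_mul]
  refine Finset.sum_congr rfl fun γ hγ => ?_
  rw [(Finset.mem_filter.1 hγ).2]
  ring

theorem mono_smul {l : ℕ} (α : Fin l → ℕ) (b : ℝ) (x : Fin l → ℝ) :
    mono α (fun r => b * x r) = b ^ (∑ r, α r) * mono α x := by
  unfold mono
  simp only [mul_pow]
  rw [Finset.prod_mul_distrib, Finset.prod_pow_eq_pow_sum]

theorem aeval_scale (F : MvPolynomial (Fin k ⊕ Fin l) ℤ) (θ : Fin k → ℝ) (b : ℝ)
    (x : Fin l → ℝ) : aeval (Sum.elim θ fun r => b * x r) F =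
      pf (SY F) (fun α => cY F θ α * b ^ (∑ r, α r)) x := by
  rw [aeval_pf]
  unfold pf
  refine Finset.sum_congr rfl fun α _ => ?_
  rw [mono_smul]
  ring

theorem deg_split (γ : (Fin k ⊕ Fin l) →₀ ℕ) :
    (∑ r, et γ r) + ∑ r, ey γ r = γ.degree := by
  rw [Finsupp.degree_eq_sum, Fintype.sum_sum_type]
  rfl

theorem supp_deg {F : MvPolynomial (Fin k ⊕ Fin l) ℤ} {N : ℕ} (hF : F.totalDegree ≤ N)
    {γ : (Fin k ⊕ Fin l) →₀ ℕ} (hγ : γ ∈ F.support) :
    (∑ r, et γ r) + ∑ r, ey γ r ≤ N := by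
  rw [deg_split]
  have h1 := le_totalDegree hγ
  have h2 : γ.degree = γ.sum fun _ e => e := rfl
  rw [h2]
  exact h1.trans hF

theorem SY_deg {F : MvPolynomial (Fin k ⊕ Fin l) ℤ} {N : ℕ} (hF : F.totalDegree ≤ N)
    {α : Fin l → ℕ} (hα : α ∈ SY F) : ∑ r, α r ≤ N := by
  obtain ⟨γ, hγ, rfl⟩ := Finset.mem_image.1 hα
  have := supp_deg hF hγ
  omega

theorem SY_card (F : MvPolynomial (Fin k ⊕ Fin l) ℤ) : ((SY F).card : ℤ) ≤ len F := by
  refine le_trans ?_ (card_le_len F)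
  exact_mod_cast Finset.card_image_le

/-- The values of the monomials in `θ`. -/
noncomputable def wt (N : ℕ) (θ : Fin k → ℝ) (b : Fin ((N + 1) ^ k)) : ℝ :=
  mono (fun r => ((finFunctionFinEquiv.symm b r : Fin (N + 1)) : ℕ)) θ

/-- A sum over some of the terms is an integer combination of the monomials in `θ`. -/
theorem comb {F : MvPolynomial (Fin k ⊕ Fin l) ℤ} {N : ℕ} (hF : F.totalDegree ≤ N)
    (θ : Fin k → ℝ) (T : Finset ((Fin k ⊕ Fin l) →₀ ℕ)) (hT : T ⊆ F.support)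
    (u : ((Fin k ⊕ Fin l) →₀ ℕ) → ℤ) (U : ℤ) (hU : 0 ≤ U)
    (hu : ∀ γ ∈ T, |u γ| ≤ U) :
    ∃ v : Fin ((N + 1) ^ k) → ℤ, (∀ b, |v b| ≤ len F * U) ∧
      ∑ γ ∈ T, ((F.coeff γ * u γ : ℤ) : ℝ) * mono (et γ) θ = ∑ b, (v b : ℝ) * wt N θ b := by
  classical
  set g : ((Fin k ⊕ Fin l) →₀ ℕ) → Fin ((N + 1) ^ k) := fun γ =>
    finFunctionFinEquiv fun r => if h : et γ r < N + 1 then ⟨et γ r, h⟩ else 0 with hg
  refine ⟨fun b => ∑ γ ∈ T.filter fun γ => g γ = b, F.coeff γ * u γ, ?_, ?_⟩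
  · intro b
    refine (Finset.abs_sum_le_sum_abs _ _).trans ?_
    calc ∑ γ ∈ T.filter fun γ => g γ = b, |F.coeff γ * u γ|
        ≤ ∑ γ ∈ T.filter fun γ => g γ = b, |F.coeff γ| * U := by
          refine Finset.sum_le_sum fun γ hγ => ?_
          rw [abs_mul]
          exact mul_le_mul_of_nonneg_left (hu γ (Finset.mem_filter.1 hγ).1) (abs_nonneg _)
      _ = (∑ γ ∈ T.filter fun γ => g γ = b, |F.coeff γ|) * U := by rw [Finset.sum_mul]
      _ ≤ len F * U := by
          refine mul_le_mul_of_nonneg_right ?_ hU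
          unfold len
          exact Finset.sum_le_sum_of_subset_of_nonneg
            ((Finset.filter_subset _ _).trans hT) fun _ _ _ => abs_nonneg _
  · have h1 : ∀ γ ∈ T, mono (et γ) θ = wt N θ (g γ) := by
      intro γ hγ
      unfold wt
      rw [hg]
      simp only [Equiv.symm_apply_apply]
      congr 1
      funext r
      have h2 : et γ r < N + 1 := by
        have h3 := supp_deg hF (hT hγ)
        have h4 := Finset.single_le_sum (f := et γ) (fun _ _ => Nat.zero_le _) (Finset.mem_univ r)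
        omega
      rw [dif_pos h2]
    rw [← Finset.sum_fiberwise_of_maps_to (g := g) (t := Finset.univ)
      (fun γ _ => Finset.mem_univ _)]
    refine Finset.sum_congr rfl fun b _ => ?_
    push_cast
    rw [Finset.sum_mul]
    refine Finset.sum_congr rfl fun γ hγ => ?_
    obtain ⟨h2, h3⟩ := Finset.mem_filter.1 hγ
    rw [h1 γ h2, h3]

end Pool.Agent.Y94.SL
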